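import Pool.Agent.V7H11.CP.Core

set_option autoImplicit false

/-!
# The dimension theorems
-/

namespace Pool.Agent.V7H11.CP

open Finset Polynomial Filter Topology MeasureTheory
open Pool.Agent.W147.PS (ff ff_compare)
open scoped ENNReal

instance countable_poly : Countable ℤ[X] := by
  rw [← Cardinal.mk_le_aleph0_iff]
  exact (Polynomial.cardinalMk_le_max).trans (by simp)

theorem linP (r : ℕ) (hr : 1 ≤ r) (D : ℕ) : ∃ κ : ℝ, 0 < κ ∧ ∃ Z₀ : ℝ,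
    LinP r (1 / ((((D + 3) * D : ℕ) : ℝ) + 2)) κ Z₀ := by
  refine Pool.Agent.Y961.JR.linear_uniform r hr (1 / ((((D + 3) * D : ℕ) : ℝ) + 2))
    (by positivity) ?_
  rw [div_le_one (by positivity)]
  have : (0 : ℝ) ≤ (((D + 3) * D : ℕ) : ℝ) := Nat.cast_nonneg _
  linarith

/-- independent families -/
def Ind {r : ℕ} (g : Fin r → ℤ[X]) : Prop :=
  LinearIndependent ℤ (Fin.cons 1 g : Fin (r + 1) → ℤ[X])

theorem ind_pow (r : ℕ) : Ind (fun j : Fin r => (X : ℤ[X]) ^ ((j : ℕ) + 1)) := by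
  unfold Ind
  have h1 : (Fin.cons 1 (fun j : Fin r => (X : ℤ[X]) ^ ((j : ℕ) + 1)) : Fin (r + 1) → ℤ[X]) =
      fun j : Fin (r + 1) => (X : ℤ[X]) ^ (j : ℕ) := by
    funext j
    refine Fin.cases ?_ (fun i => ?_) j
    · simp
    · simp
  rw [h1]
  rw [Fintype.linearIndependent_iff]
  intro c hc i
  have h2 := congrArg (fun P : ℤ[X] => P.coeff i) hc
  simp only [finsetSum_coeff, coeff_zero] at h2
  rw [Finset.sum_eq_single i] at h2
  · simpa using h2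
  · intro j _ hj
    rw [coeff_smul, coeff_X_pow, if_neg (by
      intro h
      apply hj
      exact (Fin.ext h).symm), smul_zero]
  · intro h
    exact absurd (mem_univ i) h

/-- a small subinterval -/
theorem subint {A₁ B₁ η : ℝ} (h1 : 1 ≤ A₁) (h2 : A₁ < B₁) (hη : 0 < η) :
    ∃ A B : ℝ, 1 < A ∧ A < B ∧ B ≤ A ^ (1 + η) ∧ A₁ < A ∧ B < B₁ := by
  refine ⟨(A₁ + B₁) / 2, min (((A₁ + B₁) / 2) ^ (1 + η)) (((A₁ + B₁) / 2 + B₁) / 2), by linarith,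
    ?_, min_le_left _ _, by linarith, ?_⟩
  · rw [lt_min_iff]
    constructor
    · calc (A₁ + B₁) / 2 = ((A₁ + B₁) / 2) ^ (1 : ℝ) := (Real.rpow_one _).symm
        _ < _ := Real.rpow_lt_rpow_of_exponent_lt (by linarith) (by linarith)
    · linarith
  · refine lt_of_le_of_lt (min_le_right _ _) ?_
    linarith

/-- the lower bound for countable families -/
theorem dim_family {ι : Type*} [Countable ι] (r D : ι → ℕ) (g : ∀ i, Fin (r i) → ℤ[X])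
    (hr : ∀ i, 1 ≤ r i) (hg : ∀ i j, (g i j).natDegree ≤ D i) (hind : ∀ i, Ind (g i))
    (κ Z₀ : ι → ℝ) (hκ : ∀ i, 0 < κ i)
    (hlin : ∀ i, LinP (r i) (1 / ((((D i + 3) * D i : ℕ) : ℝ) + 2)) (κ i) (Z₀ i))
    (S : ι → Set ℕ) (hS : ∀ i, (S i).Infinite) {η : ℝ} (hη0 : 0 < η) (hη : η < 1 / 2) (H : ℝ → ℝ)
    (hH : ∀ i, ∀ᶠ M : ℝ in atTop, H M ≤ κ i * (η / (1 + η)) / 64 * ff M) {s : ℝ} (hs : 0 < s)
    (hst : s < tt η) {A₁ B₁ : ℝ} (h1 : 1 ≤ A₁) (h2 : A₁ < B₁) :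
    ENNReal.ofReal s ≤ dimH {a : ℝ | a ∈ Set.Ioo A₁ B₁ ∧
      ∀ i, ∃ᶠ n in atTop, n ∈ S i ∧ Good (g i) H n a} := by
  classical
  obtain ⟨A, B, hA, hAB, hB, hA₁, hB₁⟩ := subint h1 h2 hη0
  have htt : tt η ≤ 1 := by
    unfold tt
    rw [div_le_one (by linarith)]
    linarith
  refine dim_limsup hs hst htt hAB (fun i n => if n ∈ S i then Cen A B η (g i) H n else ∅)
    (rad A η) (rad_pos hA) (rad_tendsto hA hη) ?_ _ ?_
  · intro i
    filter_upwards [full (hκ i) (hlin i) (g i) (hind i) (hg i) hA hAB hη0 hη hB H (hH i)] with x hx hxAB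
    have h3 : ∃ᶠ n in atTop, n ∈ S i := Nat.frequently_atTop_iff_infinite.2 (hS i)
    refine (h3.and_eventually (hx hxAB)).mono ?_
    rintro n ⟨hn, c, hc, hd⟩
    exact ⟨c, by rw [if_pos hn]; exact hc, hd⟩
  · rintro a ⟨ha1, ha2⟩ h3
    refine ⟨⟨by linarith, by linarith⟩, fun i => (h3 i).mono ?_⟩
    rintro n ⟨c, hc, hd⟩
    split_ifs at hc with hn
    · exact ⟨hn, hc a ha1 ha2 hd⟩
    · exact absurd hc (Set.notMem_empty c)

/-- the exponent near one -/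
theorem exists_eta {δ : ℝ} (hδ : 0 < δ) (hδ1 : δ < 1) :
    ∃ η : ℝ, 0 < η ∧ η < 1 / 2 ∧ 1 - δ < tt η := by
  refine ⟨δ / 8, by linarith, by linarith, ?_⟩
  unfold tt
  rw [lt_div_iff₀ (by linarith)]
  nlinarith

/-- **Records of the size `c f`.** -/
theorem main1 (D : ℕ) (hD : 1 ≤ D) (δ : ℝ) (hδ : 0 < δ) : ∃ c : ℝ, 0 < c ∧
    ∀ S : ℕ → Set ℕ, (∀ k, (S k).Infinite) → ∀ A₁ B₁ : ℝ, 1 ≤ A₁ → A₁ < B₁ →
    ENNReal.ofReal (1 - δ) ≤ dimH {a : ℝ | a ∈ Set.Ioo A₁ B₁ ∧ ∀ k : ℕ, ∀ r : ℕ, r ≤ D →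
      ∀ g : Fin r → ℤ[X], (∀ j, (g j).natDegree ≤ D) → Ind g →
      ∃ᶠ n in atTop, n ∈ S k ∧ Good g (fun x => c * ff x) n a} := by
  classical
  rcases le_or_gt 1 δ with hδ1 | hδ1
  · refine ⟨1, one_pos, fun S _ A₁ B₁ _ _ => ?_⟩
    rw [ENNReal.ofReal_of_nonpos (by linarith)]
    exact zero_le
  obtain ⟨η, hη0, hη, hηt⟩ := exists_eta hδ hδ1
  have hch : ∀ r : ℕ, ∃ κ : ℝ, 0 < κ ∧ ∃ Z₀ : ℝ, 1 ≤ r →
      LinP r (1 / ((((D + 3) * D : ℕ) : ℝ) + 2)) κ Z₀ := by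
    intro r
    by_cases hr : 1 ≤ r
    · obtain ⟨κ, h1, Z₀, h2⟩ := linP r hr D
      exact ⟨κ, h1, Z₀, fun _ => h2⟩
    · exact ⟨1, one_pos, 0, fun h => absurd h hr⟩
  choose κ hκ Z₀ hZ₀ using hch
  obtain ⟨r0, -, hr0⟩ := Finset.exists_min_image (range (D + 1)) κ ⟨0, mem_range.2 (by omega)⟩
  refine ⟨κ r0 * (η / (1 + η)) / 64, by have := hκ r0; positivity, ?_⟩
  intro S hS A₁ B₁ hA₁ hAB₁
  have hff : ∀ᶠ M : ℝ in atTop, 0 ≤ ff M := by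
    filter_upwards [ff_compare 1 one_pos le_rfl, eventually_ge_atTop 1] with M hM hM1
    exact (Real.log_nonneg hM1).trans hM.1
  -- the index set
  let ι : Type := {p : (Σ r : ℕ, (Fin r → ℤ[X])) // 1 ≤ p.1 ∧ p.1 ≤ D ∧
    (∀ j, (p.2 j).natDegree ≤ D) ∧ Ind p.2} × ℕ
  have h := dim_family (ι := ι) (fun i => i.1.1.1) (fun _ => D) (fun i => i.1.1.2)
    (fun i => i.1.2.1) (fun i => i.1.2.2.2.1) (fun i => i.1.2.2.2.2) (fun i => κ i.1.1.1)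
    (fun i => Z₀ i.1.1.1) (fun i => hκ _) (fun i => hZ₀ _ i.1.2.1) (fun i => S i.2)
    (fun i => hS i.2) hη0 hη (fun x => κ r0 * (η / (1 + η)) / 64 * ff x) (by
      intro i
      filter_upwards [hff] with M hM
      have h1 : κ r0 ≤ κ i.1.1.1 := hr0 _ (mem_range.2 (by have := i.1.2.2.1; omega))
      apply mul_le_mul_of_nonneg_right _ hM
      have h2 : 0 ≤ η / (1 + η) := by positivity
      have := mul_le_mul_of_nonneg_right h1 h2
      linarith) (s := 1 - δ) (by linarith) hηt hA₁ hAB₁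
  refine h.trans (dimH_mono ?_)
  rintro a ⟨ha, hall⟩
  refine ⟨ha, ?_⟩
  intro k r hr g hg hind
  rcases Nat.eq_zero_or_pos r with h0 | h0
  · -- no polynomial: use `X`
    have hind1 := ind_pow 1
    have h1 := hall (⟨⟨1, fun j : Fin 1 => (X : ℤ[X]) ^ ((j : ℕ) + 1)⟩, le_rfl, hD, by
      intro j
      refine (natDegree_X_pow_le _).trans ?_
      have := j.2
      simp only at this
      omega, hind1⟩, k)
    refine h1.mono ?_
    rintro n ⟨hn, hg1, -⟩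
    subst h0
    exact ⟨hn, hg1, fun j => j.elim0⟩
  · exact hall (⟨⟨r, g⟩, h0, hr, hg, hind⟩, k)

/-- **Every size of smaller order: dimension one.** -/
theorem main2 (H : ℝ → ℝ) (hH : ∀ ε : ℝ, 0 < ε → ∀ᶠ x : ℝ in atTop, H x ≤ ε * ff x)
    (S : ℕ → Set ℕ) (hS : ∀ k, (S k).Infinite) (A₁ B₁ : ℝ) (hA₁ : 1 ≤ A₁) (hAB₁ : A₁ < B₁) :
    dimH {a : ℝ | a ∈ Set.Ioo A₁ B₁ ∧ ∀ k : ℕ, ∀ r : ℕ,
      ∀ g : Fin r → ℤ[X], Ind g → ∃ᶠ n in atTop, n ∈ S k ∧ Good g H n a} = 1 := by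
  classical
  apply le_antisymm
  · calc _ ≤ dimH (Set.univ : Set ℝ) := dimH_mono (Set.subset_univ _)
      _ = 1 := Real.dimH_univ
  -- the index set
  let ι : Type := {p : (Σ r : ℕ, (Fin r → ℤ[X])) // 1 ≤ p.1 ∧ Ind p.2} × ℕ
  set D : ι → ℕ := fun i => ∑ j, (i.1.1.2 j).natDegree with hDdef
  have hDle : ∀ (i : ι) j, (i.1.1.2 j).natDegree ≤ D i := fun i j =>
    single_le_sum (f := fun j => (i.1.1.2 j).natDegree) (fun _ _ => Nat.zero_le _) (mem_univ j)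
  have hch : ∀ i : ι, ∃ κ : ℝ, 0 < κ ∧ ∃ Z₀ : ℝ,
      LinP i.1.1.1 (1 / ((((D i + 3) * D i : ℕ) : ℝ) + 2)) κ Z₀ := fun i =>
    linP _ i.1.2.1 (D i)
  choose κ hκ Z₀ hZ₀ using hch
  have hff : ∀ᶠ M : ℝ in atTop, 0 ≤ ff M := by
    filter_upwards [ff_compare 1 one_pos le_rfl, eventually_ge_atTop 1] with M hM hM1
    exact (Real.log_nonneg hM1).trans hM.1
  refine le_of_forall_lt fun u hu => ?_
  have hu' : u < ENNReal.ofReal 1 := by rwa [ENNReal.ofReal_one]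
  obtain ⟨s, hs1, hs2, hs3⟩ := ENNReal.lt_iff_exists_real_btwn.1 hu'
  have hs1' : s < 1 := (ENNReal.ofReal_lt_ofReal_iff one_pos).1 hs3
  have hs0 : 0 < s := by
    have : 0 < ENNReal.ofReal s := lt_of_le_of_lt zero_le hs2
    exact ENNReal.ofReal_pos.1 this
  obtain ⟨η, hη0, hη, hηt⟩ := exists_eta (δ := 1 - s) (by linarith) (by linarith)
  have h := dim_family (ι := ι) (fun i => i.1.1.1) D (fun i => i.1.1.2)
    (fun i => i.1.2.1) hDle (fun i => i.1.2.2) κ Z₀ hκ hZ₀ (fun i => S i.2)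
    (fun i => hS i.2) hη0 hη H (by
      intro i
      have := hκ i
      exact hH _ (by positivity)) (s := s) hs0 (by linarith) hA₁ hAB₁
  refine lt_of_lt_of_le hs2 (h.trans (dimH_mono ?_))
  rintro a ⟨ha, hall⟩
  refine ⟨ha, ?_⟩
  intro k r g hind
  rcases Nat.eq_zero_or_pos r with h0 | h0
  · have h1 := hall (⟨⟨1, fun j : Fin 1 => (X : ℤ[X]) ^ ((j : ℕ) + 1)⟩, le_rfl, ind_pow 1⟩, k)
    refine h1.mono ?_
    rintro n ⟨hn, hg1, -⟩
    subst h0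
    exact ⟨hn, hg1, fun j => j.elim0⟩
  · exact hall (⟨⟨r, g⟩, h0, hind⟩, k)

/-- consecutive powers -/
theorem good_pow {r n : ℕ} {H : ℝ → ℝ} {a : ℝ}
    (h : Good (fun j : Fin r => (X : ℤ[X]) ^ ((j : ℕ) + 1)) H n a) :
    ∀ j ≤ r, PF (a ^ (n + j)) (H (a ^ n)) := by
  intro j hj
  rcases Nat.eq_zero_or_pos j with h0 | h0
  · subst h0
    exact h.1
  · have h1 := h.2 ⟨j - 1, by omega⟩
    simp only [map_pow, aeval_X] at h1
    rw [← pow_add, show j - 1 + 1 + n = n + j by omega] at h1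
    exact h1

end Pool.Agent.V7H11.CP
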