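import Mathlib

set_option autoImplicit false

/-!
# Almost all numbers are not too close to being zeros of integer polynomials of bounded degree
-/

namespace Pool.Agent.V7H11.CP

open MeasureTheory Filter Polynomial Topology
open scoped ENNReal

theorem prod_ge (s : Multiset ℂ) (x : ℂ) (ε : ℝ) (h0 : 0 ≤ ε) (h : ∀ z ∈ s, ε ≤ ‖x - z‖) :
    ε ^ s.card ≤ ‖(s.map (fun z => x - z)).prod‖ := by
  induction s using Multiset.induction_on with
  | empty => simp
  | cons a s ih =>
    rw [Multiset.map_cons, Multiset.prod_cons, norm_mul, Multiset.card_cons, pow_succ,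
      mul_comm (ε ^ _)]
    exact mul_le_mul (h a (Multiset.mem_cons_self a s))
      (ih fun z hz => h z (Multiset.mem_cons_of_mem hz)) (by positivity) (norm_nonneg _)

/-- sublevel sets of integer polynomials -/
theorem sublevel (P : ℤ[X]) (hP : P ≠ 0) (D : ℕ) (hD : P.natDegree ≤ D) (ε : ℝ) (h0 : 0 < ε)
    (h1 : ε ≤ 1) :
    volume {x : ℝ | |aeval x P| < ε ^ D} ≤ ENNReal.ofReal (2 * D * ε) := by
  classical
  set Pc : ℂ[X] := P.map (Int.castRingHom ℂ) with hPc
  have hPc0 : Pc ≠ 0 := by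
    rw [hPc, Ne, Polynomial.map_eq_zero_iff (RingHom.injective_int _)]
    exact hP
  have hdeg : Pc.natDegree = P.natDegree :=
    natDegree_map_eq_of_injective (RingHom.injective_int _) P
  have hlc : 1 ≤ ‖Pc.leadingCoeff‖ := by
    rw [hPc, leadingCoeff_map_of_injective (RingHom.injective_int _)]
    have h2 : P.leadingCoeff ≠ 0 := leadingCoeff_ne_zero.2 hP
    have h3 : (1 : ℤ) ≤ |P.leadingCoeff| := Int.one_le_abs h2
    have h4 : ‖((Int.castRingHom ℂ) P.leadingCoeff)‖ = ((|P.leadingCoeff| : ℤ) : ℝ) := by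
      rw [eq_intCast, Complex.norm_intCast]
      push_cast
      rfl
    rw [h4]
    exact_mod_cast h3
  have hcard : Pc.roots.card ≤ D := (card_roots' Pc).trans (hdeg.le.trans hD)
  have hsub : {x : ℝ | |aeval x P| < ε ^ D} ⊆
      ⋃ z ∈ Pc.roots.toFinset, Set.Ioo (z.re - ε) (z.re + ε) := by
    intro x hx
    by_contra hno
    simp only [Set.mem_iUnion, Multiset.mem_toFinset, Set.mem_Ioo, not_exists, not_and,
      not_lt] at hno
    have h2 : ∀ z ∈ Pc.roots, ε ≤ ‖(x : ℂ) - z‖ := by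
      intro z hz
      have h3 : |x - z.re| ≤ ‖(x : ℂ) - z‖ := by
        have := Complex.abs_re_le_norm ((x : ℂ) - z)
        simpa using this
      refine le_trans ?_ h3
      by_contra h4
      push Not at h4
      rw [abs_lt] at h4
      have := hno z hz (by linarith)
      linarith
    have h3 := prod_ge Pc.roots x ε h0.le h2
    have h4 : eval (x : ℂ) Pc = Pc.leadingCoeff * (Pc.roots.map (fun z => (x : ℂ) - z)).prod :=
      (IsAlgClosed.splits Pc).eval_eq_prod_roots x
    have h5 : eval (x : ℂ) Pc = ((aeval x P : ℝ) : ℂ) := by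
      rw [hPc, eval_map]
      simp [aeval_def, eval₂_eq_sum_range]
    have h6 : |aeval x P| = ‖eval (x : ℂ) Pc‖ := by
      rw [h5, Complex.norm_real, Real.norm_eq_abs]
    have h7 : ε ^ D ≤ |aeval x P| := by
      rw [h6, h4, norm_mul]
      calc ε ^ D ≤ ε ^ Pc.roots.card := pow_le_pow_of_le_one h0.le h1 hcard
        _ = 1 * ε ^ Pc.roots.card := (one_mul _).symm
        _ ≤ _ := mul_le_mul hlc h3 (by positivity) (norm_nonneg _)
    exact absurd hx (not_lt.2 h7)
  calc volume {x : ℝ | |aeval x P| < ε ^ D}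
      ≤ volume (⋃ z ∈ Pc.roots.toFinset, Set.Ioo (z.re - ε) (z.re + ε)) := measure_mono hsub
    _ ≤ ∑ z ∈ Pc.roots.toFinset, volume (Set.Ioo (z.re - ε) (z.re + ε)) :=
        measure_biUnion_finset_le _ _
    _ = ∑ z ∈ Pc.roots.toFinset, ENNReal.ofReal (2 * ε) := by
        refine Finset.sum_congr rfl fun z _ => ?_
        rw [Real.volume_Ioo]
        congr 1
        ring
    _ = Pc.roots.toFinset.card * ENNReal.ofReal (2 * ε) := by
        rw [Finset.sum_const, nsmul_eq_mul]
    _ ≤ D * ENNReal.ofReal (2 * ε) := by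
        gcongr
        exact_mod_cast (Multiset.toFinset_card_le _).trans hcard
    _ = ENNReal.ofReal (2 * D * ε) := by
        rw [show (2 * D * ε : ℝ) = D * (2 * ε) by ring, ENNReal.ofReal_mul (Nat.cast_nonneg D),
          ENNReal.ofReal_natCast]

/-- the polynomial with given coefficients -/
noncomputable def toPoly (D : ℕ) (a : Fin (D + 1) → ℤ) : ℤ[X] := ∑ i, C (a i) * X ^ (i : ℕ)

theorem toPoly_coeff (D : ℕ) (P : ℤ[X]) (hD : P.natDegree ≤ D) :
    toPoly D (fun i => P.coeff i) = P := by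
  unfold toPoly
  rw [Fin.sum_univ_eq_sum_range (fun i => C (P.coeff i) * X ^ i) (D + 1)]
  exact (as_sum_range_C_mul_X_pow' P (by omega)).symm

theorem natDegree_toPoly (D : ℕ) (a : Fin (D + 1) → ℤ) : (toPoly D a).natDegree ≤ D := by
  unfold toPoly
  refine natDegree_sum_le_of_forall_le _ _ fun i _ => ?_
  refine (natDegree_C_mul_X_pow_le _ _).trans ?_
  omega

/-- **Almost all numbers are not too close to zeros of integer polynomials of degree at most `D`.** -/
theorem ae_poly (D : ℕ) : ∀ᵐ x : ℝ, ∀ᶠ H : ℕ in atTop, ∀ P : ℤ[X], P ≠ 0 → P.natDegree ≤ D →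
    (∀ i, |P.coeff i| ≤ H) → 1 ≤ |aeval x P| * (H : ℝ) ^ ((D + 3) * D) := by
  classical
  set S : ℕ → Finset (Fin (D + 1) → ℤ) := fun H =>
    Fintype.piFinset (fun _ => Finset.Icc (-(H : ℤ)) H) with hS
  have hScard : ∀ H, (S H).card = (2 * H + 1) ^ (D + 1) := by
    intro H
    simp only [hS]
    rw [Fintype.card_piFinset, Finset.prod_const, Finset.card_univ, Fintype.card_fin,
      Int.card_Icc]
    congr 1
    omega
  set E : ℕ → Set ℝ := fun H => ⋃ a ∈ (S H).filter (fun a => toPoly D a ≠ 0),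
    {x : ℝ | |aeval x (toPoly D a)| < ((H : ℝ) ^ (D + 3))⁻¹ ^ D} with hE
  have hmeas : ∀ H : ℕ, 1 ≤ H → volume (E H) ≤ ENNReal.ofReal (2 * D * 3 ^ (D + 1) * (1 / (H : ℝ) ^ 2)) := by
    intro H hH
    have hH' : (1 : ℝ) ≤ H := by exact_mod_cast hH
    have hH0 : (0 : ℝ) < H := by linarith
    set ε : ℝ := ((H : ℝ) ^ (D + 3))⁻¹ with hε
    have he0 : 0 < ε := by positivity
    have he1 : ε ≤ 1 := inv_le_one_of_one_le₀ (one_le_pow₀ hH')
    calc volume (E H) ≤ ∑ a ∈ (S H).filter (fun a => toPoly D a ≠ 0),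
          volume {x : ℝ | |aeval x (toPoly D a)| < ε ^ D} := measure_biUnion_finset_le _ _
      _ ≤ ∑ a ∈ (S H).filter (fun a => toPoly D a ≠ 0), ENNReal.ofReal (2 * D * ε) := by
          refine Finset.sum_le_sum fun a ha => ?_
          exact sublevel _ (Finset.mem_filter.1 ha).2 D (natDegree_toPoly D a) ε he0 he1
      _ = ((S H).filter (fun a => toPoly D a ≠ 0)).card * ENNReal.ofReal (2 * D * ε) := by
          rw [Finset.sum_const, nsmul_eq_mul]
      _ ≤ ((2 * H + 1) ^ (D + 1) : ℕ) * ENNReal.ofReal (2 * D * ε) := by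
          gcongr
          rw [← hScard H]
          exact Finset.card_filter_le _ _
      _ = ENNReal.ofReal (((2 * H + 1) ^ (D + 1) : ℕ) * (2 * D * ε)) := by
          rw [ENNReal.ofReal_mul (p := (((2 * H + 1) ^ (D + 1) : ℕ) : ℝ)) (Nat.cast_nonneg _),
            ENNReal.ofReal_natCast]
      _ ≤ _ := by
          apply ENNReal.ofReal_le_ofReal
          have h3 : (2 * (H : ℝ) + 1) ^ (D + 1) ≤ (3 * H) ^ (D + 1) :=
            pow_le_pow_left₀ (by positivity) (by linarith) _
          have h4 : (3 * (H : ℝ)) ^ (D + 1) * ε = 3 ^ (D + 1) * (1 / (H : ℝ) ^ 2) := by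
            rw [hε, mul_pow]
            field_simp
            ring
          push_cast
          calc (2 * (H : ℝ) + 1) ^ (D + 1) * (2 * D * ε)
              ≤ (3 * H) ^ (D + 1) * (2 * D * ε) :=
                mul_le_mul_of_nonneg_right h3 (by positivity)
            _ = 2 * D * ((3 * (H : ℝ)) ^ (D + 1) * ε) := by ring
            _ = _ := by rw [h4]; ring
  have hsum : ∑' H : ℕ, volume (E (H + 1)) ≠ ∞ := by
    have hs : Summable (fun H : ℕ => 2 * D * 3 ^ (D + 1) * (1 / (((H + 1 : ℕ) : ℝ)) ^ 2)) := by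
      apply Summable.mul_left
      exact (summable_nat_add_iff 1).mpr (Real.summable_one_div_nat_pow.2 (by norm_num : 1 < 2))
    refine ne_top_of_le_ne_top ?_ (ENNReal.tsum_le_tsum fun H => hmeas (H + 1) (by omega))
    rw [← ENNReal.ofReal_tsum_of_nonneg (fun H => by positivity) hs]
    exact ENNReal.ofReal_ne_top
  have hae := ae_eventually_notMem hsum
  filter_upwards [hae] with x hx
  have hx' : ∀ᶠ H : ℕ in atTop, x ∉ E H := by
    obtain ⟨N, hN⟩ := eventually_atTop.1 hx
    rw [eventually_atTop]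
    refine ⟨N + 1, fun H hH => ?_⟩
    have := hN (H - 1) (by omega)
    rwa [show H - 1 + 1 = H by omega] at this
  filter_upwards [hx', eventually_ge_atTop 1] with H hH hH1 P hP hdeg hco
  have hH' : (1 : ℝ) ≤ H := by exact_mod_cast hH1
  have hH0 : (0 : ℝ) < H := by linarith
  by_contra hcon
  push Not at hcon
  apply hH
  simp only [hE, Set.mem_iUnion, Finset.mem_filter]
  refine ⟨fun i => P.coeff i, ⟨?_, ?_⟩, ?_⟩
  · simp only [hS]
    rw [Fintype.mem_piFinset]
    intro i
    rw [Finset.mem_Icc]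
    have := abs_le.1 (hco i)
    exact this
  · rw [toPoly_coeff D P hdeg]
    exact hP
  · rw [toPoly_coeff D P hdeg]
    show |aeval x P| < ((H : ℝ) ^ (D + 3))⁻¹ ^ D
    rw [inv_pow, ← pow_mul, inv_eq_one_div, lt_div_iff₀ (by positivity)]
    exact hcon

end Pool.Agent.V7H11.CP
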