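import Pool.Agent.R331.MT.Three

set_option autoImplicit false

/-!
# Contents and dimension of countable intersections of full open sets

The one-dimensional content theorem of the library (`R331/MT`), for countable intersections.
-/

namespace Pool.Agent.V7H11.CP

open MeasureTheory Filter Topology Set
open Pool.Agent.R331.MT
open scoped ENNReal NNReal

theorem content1 {s : ℝ} (hs : 0 < s) (hs1 : s ≤ 1) (U : ℕ → Set ℝ) (hopen : ∀ n, IsOpen (U n))
    (hF : ∀ n, Full s (U n)) (A : ℕ → Set ℝ)
    (hA : {x | x ∈ Icc (0:ℝ) 1 ∧ ∀ n, x ∈ U n} ⊆ ⋃ j, A j) :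
    ENNReal.ofReal (1/20) ≤ ∑' j, Metric.ediam (A j) ^ s := by
  by_contra hcon
  push Not at hcon
  have hsmall : ∀ j, Metric.ediam (A j) < 1 := by
    intro j
    by_contra h
    push Not at h
    have h1 : Metric.ediam (A j) ^ s ≤ ∑' j, Metric.ediam (A j) ^ s := ENNReal.le_tsum j
    have h2 : (1:ℝ≥0∞) ≤ Metric.ediam (A j) ^ s := ENNReal.one_le_rpow h hs
    have h3 := (h2.trans h1).trans_lt hcon
    rw [← ENNReal.ofReal_one] at h3
    have := (ENNReal.ofReal_lt_ofReal_iff (by norm_num)).mp h3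
    norm_num at this
  have hch := fun j => single hs hs1 (A j) (hsmall j) (show (0:ℝ) < (1/2)^(j+3) by positivity)
  choose n T hT1 hT2 using hch
  have hW : W s (⋃ j, T j) < 1 := by
    calc W s (⋃ j, T j) ≤ ∑' j, W s (T j) := by
          unfold W
          rw [ENNReal.tsum_comm]
          apply ENNReal.tsum_le_tsum
          intro p
          by_cases hp : p ∈ ⋃ j, T j
          · rw [Set.indicator_of_mem hp]
            obtain ⟨j, hj⟩ := mem_iUnion.mp hp
            refine le_trans (le_of_eq ?_) (ENNReal.le_tsum j)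
            rw [Set.indicator_of_mem hj]
          · rw [Set.indicator_of_notMem hp]
            exact zero_le
      _ ≤ ∑' j, (10 * Metric.ediam (A j) ^ s + ENNReal.ofReal ((1/2)^(j+3))) := ENNReal.tsum_le_tsum hT2
      _ = 10 * ∑' j, Metric.ediam (A j) ^ s + ∑' j : ℕ, ENNReal.ofReal ((1/2)^(j+3)) := by
          rw [ENNReal.tsum_add, ENNReal.tsum_mul_left]
      _ ≤ 10 * ENNReal.ofReal (1/20) + ENNReal.ofReal (1/4) := by
          gcongr
          have hs2 : Summable (fun n : ℕ => ((1:ℝ)/2)^(n+3)) :=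
            (summable_nat_add_iff 3).mpr summable_geometric_two
          rw [← ENNReal.ofReal_tsum_of_nonneg (fun n => by positivity) hs2]
          apply ENNReal.ofReal_le_ofReal
          have e : ∀ n : ℕ, ((1:ℝ)/2)^(n+3) = (1/8) * ((1:ℝ)/2)^n := by
            intro n
            rw [pow_add]
            ring
          simp_rw [e]
          rw [tsum_mul_left, tsum_geometric_two]
          norm_num
      _ = ENNReal.ofReal (3/4) := by
          have : (10:ℝ≥0∞) = ENNReal.ofReal 10 := by norm_num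
          rw [this, ← ENNReal.ofReal_mul (by norm_num), ← ENNReal.ofReal_add (by norm_num) (by norm_num)]
          norm_num
      _ < 1 := by
          rw [← ENNReal.ofReal_one]
          exact (ENNReal.ofReal_lt_ofReal_iff (by norm_num)).mpr (by norm_num)
  obtain ⟨x, hx01, hxU, hxL⟩ := game U hopen hF hW
  obtain ⟨j, hj⟩ := mem_iUnion.mp (hA ⟨hx01, hxU⟩)
  obtain ⟨L, hL1, hL2, hL3, hL4⟩ := hxL (n j + 1)
  set y : ℝ := (L.2:ℝ) / 2^L.1 with hy
  have hyL : y ∈ D L := D_nonempty L
  have hy0 : 0 ≤ y := by positivity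
  have hxy : |y - x| < 1 / 2^(n j) := by
    have h1 := hL2.1
    have h2 := hL2.2
    rw [add_div] at h2
    have h3 : (1:ℝ) / 2^L.1 ≤ 1/2^(n j + 1) := by
      apply one_div_le_one_div_of_le (by positivity)
      exact pow_le_pow_right₀ (by norm_num) hL1
    have h4 : (1:ℝ)/2^(n j + 1) < 1/2^(n j) := by
      apply one_div_lt_one_div_of_lt (by positivity)
      exact pow_lt_pow_right₀ (by norm_num) (by omega)
    rw [abs_lt]
    constructor <;> linarith
  have hmem := hT1 j x hj hx01 y hy0 hxy
  refine hL4 _ (mem_iUnion.mpr ⟨j, hmem⟩) ?_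
  exact D_nested hyL (mem_D_idx hy0 _) (by show n j ≤ L.1; omega)

/-- the dimension of a set containing a countable intersection of full open sets -/
theorem dim_ge {s : ℝ} (hs : 0 < s) (hs1 : s ≤ 1) (U : ℕ → Set ℝ) (hopen : ∀ n, IsOpen (U n))
    (hF : ∀ n, Full s (U n)) (E : Set ℝ) (hE : {x | x ∈ Icc (0:ℝ) 1 ∧ ∀ n, x ∈ U n} ⊆ E) :
    ENNReal.ofReal s ≤ dimH E := by
  have hcont : μH[s] E ≠ 0 := by
    intro hzero
    have h4 : ENNReal.ofReal (1 / 20) ≤ μH[s] E := by
      rw [Measure.hausdorffMeasure_apply]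
      refine le_trans ?_ (le_iSup₂ (f := fun (r : ℝ≥0∞) (_ : 0 < r) =>
        ⨅ (t : ℕ → Set ℝ) (_ : E ⊆ ⋃ n, t n) (_ : ∀ n, Metric.ediam (t n) ≤ r),
          ∑' n, ⨆ _ : (t n).Nonempty, Metric.ediam (t n) ^ s) 1 one_pos)
      refine le_iInf fun A => le_iInf fun hA => le_iInf fun _ => ?_
      have h5 := content1 hs hs1 U hopen hF A (hE.trans hA)
      refine h5.trans (ENNReal.tsum_le_tsum fun n => ?_)
      rcases (A n).eq_empty_or_nonempty with hn | hn
      · rw [hn, Metric.ediam_empty, ENNReal.zero_rpow_of_pos hs]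
        exact zero_le
      · exact le_iSup (fun _ : (A n).Nonempty => Metric.ediam (A n) ^ s) hn
    rw [hzero] at h4
    have h5 : ENNReal.ofReal (1 / 20) = 0 := nonpos_iff_eq_zero.1 h4
    rw [ENNReal.ofReal_eq_zero] at h5
    norm_num at h5
  have h7 : ((Real.toNNReal s : ℝ≥0) : ℝ) = s := Real.coe_toNNReal s hs.le
  have h8 := le_dimH_of_hausdorffMeasure_ne_zero (d := Real.toNNReal s) (s := E)
    (by rw [h7]; exact hcont)
  exact h8

/-- the same for an interval `(a, b)`, with the full sets given by limsup sets of intervals: for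
countably many families of centres `C i k`, of radii `ρ k`, such that almost every point of the
interval is in infinitely many intervals with these centres and radii, the dimension of the
intersection of the limsup sets of the smaller intervals of radii `(ρ k) ^ (1/t)` -/
theorem dim_limsup {ι : Type*} [Countable ι] {s t : ℝ} (hs : 0 < s) (hst : s < t) (ht : t ≤ 1)
    {a b : ℝ} (hab : a < b) (C : ι → ℕ → Set ℝ) (ρ : ℕ → ℝ) (hρ : ∀ k, 0 < ρ k)
    (hρ0 : Tendsto ρ atTop (𝓝 0))
    (hfull : ∀ i, ∀ᵐ x ∂(volume : Measure ℝ), x ∈ Ioo a b →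
      ∃ᶠ k in atTop, ∃ c ∈ C i k, |x - c| < (b - a) * ρ k) (E : Set ℝ)
    (hE : ∀ x ∈ Icc a b, (∀ i, ∃ᶠ k in atTop, ∃ c ∈ C i k, |x - c| < (b - a) * ρ k ^ (1/t)) →
      x ∈ E) :
    ENNReal.ofReal s ≤ dimH E := by
  have hba : 0 < b - a := sub_pos.2 hab
  -- the affine map
  set φ : ℝ → ℝ := fun y => a + (b - a) * y with hφ
  set C' : ι → ℕ → Set ℝ := fun i k => φ ⁻¹' (C i k) with hC'
  have hfull' : ∀ i, ∀ᵐ y ∂(volume : Measure ℝ), y ∈ Ioo (0:ℝ) 1 →
      ∃ᶠ k in atTop, ∃ c ∈ C' i k, |y - c| < ρ k := by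
    intro i
    have h1 : Measure.QuasiMeasurePreserving φ volume volume := by
      have h2 : Measure.QuasiMeasurePreserving (fun y : ℝ => (b - a) * y) volume volume :=
        Measure.quasiMeasurePreserving_smul (volume : Measure ℝ) hba.ne'
      have h3 : Measure.QuasiMeasurePreserving (fun y : ℝ => a + y) volume volume :=
        (measurePreserving_add_left volume a).quasiMeasurePreserving
      exact h3.comp h2
    filter_upwards [h1.ae (hfull i)] with y hy hy01
    have h4 : φ y ∈ Ioo a b := by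
      refine ⟨?_, ?_⟩
      · show a < a + (b - a) * y
        nlinarith [hy01.1]
      · show a + (b - a) * y < b
        nlinarith [hy01.2]
    refine (hy h4).mono ?_
    rintro k ⟨c, hc, hcd⟩
    refine ⟨(c - a) / (b - a), ?_, ?_⟩
    · show φ ((c - a) / (b - a)) ∈ C i k
      have : φ ((c - a) / (b - a)) = c := by
        simp only [hφ]
        field_simp
        ring
      rw [this]
      exact hc
    · have e : y - (c - a) / (b - a) = (φ y - c) / (b - a) := by
        simp only [hφ]
        field_simp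
        ring
      rw [e, abs_div, abs_of_pos hba, div_lt_iff₀ hba, mul_comm]
      exact hcd
  rcases isEmpty_or_nonempty ι with hι | hι
  · -- trivial family
    have h1 : Icc a b ⊆ E := fun x hx => hE x hx (fun i => (hι.false i).elim)
    have h2 : dimH (Icc a b) = 1 := by
      rw [Real.dimH_of_nonempty_interior (by
        rw [interior_Icc]
        exact nonempty_Ioo.2 hab)]
      simp
    calc ENNReal.ofReal s ≤ ENNReal.ofReal 1 := ENNReal.ofReal_le_ofReal (by linarith)
      _ = 1 := ENNReal.ofReal_one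
      _ = dimH (Icc a b) := h2.symm
      _ ≤ dimH E := dimH_mono h1
  obtain ⟨g, hg⟩ := exists_surjective_nat (ι × ℕ)
  set U : ℕ → Set ℝ := fun m => {y | ∃ k, (g m).2 ≤ k ∧ ∃ c ∈ C' (g m).1 k, |y - c| < ρ k ^ (1/t)}
    with hU
  have hopen : ∀ n, IsOpen (U n) := by
    intro n
    have e : U n = ⋃ k, ⋃ (_ : (g n).2 ≤ k), ⋃ c ∈ C' (g n).1 k, Metric.ball c (ρ k ^ (1/t)) := by
      ext y
      simp only [hU, mem_iUnion, Metric.mem_ball, Real.dist_eq]
      constructor
      · rintro ⟨k, hk, c, hc, hy⟩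
        exact ⟨k, hk, c, hc, hy⟩
      · rintro ⟨k, hk, c, hc, hy⟩
        exact ⟨k, hk, c, hc, hy⟩
    rw [e]
    exact isOpen_iUnion fun k => isOpen_iUnion fun _ => isOpen_iUnion fun c => isOpen_iUnion fun _ => Metric.isOpen_ball
  have hF : ∀ n, Full s (U n) := fun n =>
    full_of_ae hs hst ht (C' (g n).1) ρ hρ hρ0 (hfull' (g n).1) (g n).2
  have h1 := dim_ge hs (by linarith) U hopen hF (φ ⁻¹' E) (by
    rintro y ⟨hy01, hyU⟩
    apply hE
    · refine ⟨?_, ?_⟩
      · show a ≤ a + (b - a) * y
        nlinarith [hy01.1]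
      · show a + (b - a) * y ≤ b
        nlinarith [hy01.2]
    · intro i
      rw [frequently_atTop]
      intro m
      obtain ⟨n, hn⟩ := hg (i, m)
      have h2 := hyU n
      simp only [hU, hn, mem_ofPred_eq] at h2
      obtain ⟨k, hk, c, hc, hcd⟩ := h2
      refine ⟨k, hk, φ c, hc, ?_⟩
      have e : φ y - φ c = (b - a) * (y - c) := by
        simp only [hφ]
        ring
      rw [e, abs_mul, abs_of_pos hba]
      exact mul_lt_mul_of_pos_left hcd hba)
  refine h1.trans ?_
  -- the affine map is bi-Lipschitz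
  have h2 : φ '' (φ ⁻¹' E) ⊆ E := image_preimage_subset φ E
  refine le_trans ?_ (dimH_mono h2)
  have h3 : AntilipschitzWith (Real.toNNReal (1 / (b - a))) φ := by
    apply AntilipschitzWith.of_le_mul_dist
    intro x y
    rw [Real.coe_toNNReal _ (by positivity), Real.dist_eq, Real.dist_eq]
    have e : φ x - φ y = (b - a) * (x - y) := by
      simp only [hφ]
      ring
    rw [e, abs_mul, abs_of_pos hba]
    field_simp
    exact le_rfl
  exact h3.le_dimH_image _

end Pool.Agent.V7H11.CP
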