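import Pool.Agent.V7H11.CP.Stage
import Pool.Agent.V7H11.CP.AePoly
import Pool.Agent.V7H11.CP.Content

set_option autoImplicit false

/-!
# Almost every point is in the large intervals of all large orders
-/

namespace Pool.Agent.V7H11.CP

open Finset Polynomial Filter Topology MeasureTheory
open Pool.Agent.W147.PS (ff ff_compare)

theorem PF.mono {x d d' : ℝ} (h : PF x d) (hd : d' ≤ d) : PF x d' :=
  fun q hq => lt_of_le_of_lt hd (h q hq)

/-- the numbers `a ^ n` and `g_j (a) a ^ n` are not within `H (a ^ n)` of a prime -/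
def Good {r : ℕ} (g : Fin r → ℤ[X]) (H : ℝ → ℝ) (n : ℕ) (a : ℝ) : Prop :=
  PF (a ^ n) (H (a ^ n)) ∧ ∀ j, PF (aeval a (g j) * a ^ n) (H (a ^ n))

/-- the radii -/
noncomputable def rad (A η : ℝ) (n : ℕ) : ℝ := (A ^ (-(1 - 2 * η))) ^ n

/-- the exponent -/
noncomputable def tt (η : ℝ) : ℝ := (1 - 2 * η) / (1 + 2 * η)

/-- the centres -/
def Cen {r : ℕ} (A B η : ℝ) (g : Fin r → ℤ[X]) (H : ℝ → ℝ) (n : ℕ) : Set ℝ :=
  {c | ∀ a : ℝ, A ≤ a → a ≤ B → |a - c| < (B - A) * rad A η n ^ (1 / tt η) → Good g H n a}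

theorem rad_pos {A η : ℝ} (hA : 1 < A) (n : ℕ) : 0 < rad A η n := by
  unfold rad
  have : 0 < A := by linarith
  positivity

theorem rad_tendsto {A η : ℝ} (hA : 1 < A) (hη : η < 1 / 2) :
    Tendsto (rad A η) atTop (𝓝 0) := by
  unfold rad
  apply tendsto_pow_atTop_nhds_zero_of_lt_one
  · exact Real.rpow_nonneg (by linarith) _
  · exact Real.rpow_lt_one_of_one_lt_of_neg hA (by linarith)

theorem rad_rpow {A η : ℝ} (hA : 1 < A) (hη0 : 0 < η) (hη : η < 1 / 2) (n : ℕ) :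
    rad A η n ^ (1 / tt η) = (A ^ (-(1 + 2 * η))) ^ n := by
  unfold rad tt
  have hA0 : 0 < A := by linarith
  have h1 : 1 - 2 * η ≠ 0 := by linarith
  have h2 : 1 + 2 * η ≠ 0 := by linarith
  rw [← Real.rpow_natCast, ← Real.rpow_natCast, ← Real.rpow_mul hA0.le, ← Real.rpow_mul hA0.le,
    ← Real.rpow_mul hA0.le]
  congr 1
  field_simp

/-- **Almost every point is in a large interval of order `n`, for all large `n`.** -/
theorem full {D r : ℕ} {κ Z₀ : ℝ} (hκ : 0 < κ)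
    (hlin : LinP r (1 / ((((D + 3) * D : ℕ) : ℝ) + 2)) κ Z₀)
    (g : Fin r → ℤ[X]) (hli : LinearIndependent ℤ (Fin.cons 1 g : Fin (r + 1) → ℤ[X]))
    (hg : ∀ j, (g j).natDegree ≤ D) {A B η : ℝ} (hA : 1 < A) (hAB : A < B) (hη0 : 0 < η)
    (hη : η < 1 / 2) (hB : B ≤ A ^ (1 + η)) (H : ℝ → ℝ)
    (hH : ∀ᶠ M : ℝ in atTop, H M ≤ κ * (η / (1 + η)) / 64 * ff M) :
    ∀ᵐ x ∂(volume : Measure ℝ), x ∈ Set.Ioo A B →
      ∀ᶠ n in atTop, ∃ c ∈ Cen A B η g H n, |x - c| < (B - A) * rad A η n := by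
  have hA0 : 0 < A := by linarith
  have hBA : 0 < B - A := by linarith
  have hB1 : 1 < B := by linarith
  set τ : ℕ := (D + 3) * D with hτ
  set b : ℝ := A ^ (η / ((τ : ℝ) + 2)) with hb
  have hτ2 : (0 : ℝ) < (τ : ℝ) + 2 := by positivity
  have hb1 : 1 < b := Real.one_lt_rpow hA (by positivity)
  have hbz : b ^ (τ + 2) = A ^ η := by
    rw [hb, ← Real.rpow_natCast, ← Real.rpow_mul hA0.le]
    congr 1
    push_cast
    field_simp
  have hzz : (b ^ (τ + 2)) ^ 2 < A := by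
    rw [hbz, ← Real.rpow_natCast, ← Real.rpow_mul hA0.le]
    calc A ^ (η * ((2 : ℕ) : ℝ)) < A ^ (1 : ℝ) := by
          apply Real.rpow_lt_rpow_of_exponent_lt hA
          push_cast
          linarith
      _ = A := Real.rpow_one A
  -- the comparison of the record scales
  set θ : ℝ := η / (1 + η) with hθ
  have hθ0 : 0 < θ := by positivity
  have hθ1 : θ ≤ 1 := by
    rw [hθ, div_le_one (by linarith)]
    linarith
  have hff : ∀ᶠ n : ℕ in atTop, ∀ M : ℝ, A ^ n ≤ M → M ≤ B ^ n →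
      H M ≤ κ * ff ((A ^ η) ^ n) - 2 := by
    have h1 := (ff_compare θ hθ0 hθ1).and (hH.and
      (Real.tendsto_log_atTop.eventually_ge_atTop (128 / (κ * θ))))
    obtain ⟨M₀, hM₀⟩ := eventually_atTop.1 h1
    filter_upwards [(tendsto_pow_atTop_atTop_of_one_lt hA).eventually_ge_atTop M₀] with n hn M h2 h3
    obtain ⟨⟨h4, h5⟩, h6, h7⟩ := hM₀ M (hn.trans h2)
    have hM1 : 1 ≤ M := (one_le_pow₀ hA.le).trans h2
    have hM0 : 0 < M := by linarith
    obtain ⟨h8, -, -⟩ := h5 ((A ^ η) ^ n) (by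
      calc M ^ θ ≤ (B ^ n) ^ θ := Real.rpow_le_rpow hM0.le h3 hθ0.le
        _ ≤ ((A ^ (1 + η)) ^ n) ^ θ := by
            apply Real.rpow_le_rpow (by positivity) _ hθ0.le
            exact pow_le_pow_left₀ (by linarith) hB n
        _ = (A ^ η) ^ n := by
            rw [← Real.rpow_natCast, ← Real.rpow_natCast, ← Real.rpow_mul hA0.le,
              ← Real.rpow_mul hA0.le, ← Real.rpow_mul hA0.le]
            congr 1
            rw [hθ]
            have : 1 + η ≠ 0 := by linarith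
            field_simp) (by
      calc (A ^ η) ^ n ≤ A ^ n := by
            apply pow_le_pow_left₀ (by positivity)
            calc A ^ η ≤ A ^ (1 : ℝ) := Real.rpow_le_rpow_of_exponent_le hA.le (by linarith)
              _ = A := Real.rpow_one A
        _ ≤ M := h2
        _ ≤ M ^ 2 := by nlinarith)
    have h9 : 128 / (κ * θ) ≤ ff M := h7.trans h4
    have h10 : 128 ≤ ff M * (κ * θ) := (div_le_iff₀ (by positivity)).1 h9
    have h11 : κ * (θ / 32 * ff M) ≤ κ * ff ((A ^ η) ^ n) := mul_le_mul_of_nonneg_left h8 hκ.le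
    calc H M ≤ κ * θ / 64 * ff M := h6
      _ = κ * (θ / 32 * ff M) - κ * θ / 64 * ff M := by ring
      _ ≤ κ * (θ / 32 * ff M) - 2 := by
          have : κ * θ / 64 * ff M = (ff M * (κ * θ)) / 64 := by ring
          rw [this]
          linarith
      _ ≤ _ := by linarith
  -- the small intervals
  set K4 : ℝ := ((∑ j, len D (g j)) + 1) * ((D + 1) * B ^ D) with hK4
  have hK40 : 0 < K4 := by
    have h1 : 0 ≤ ∑ j, len D (g j) := sum_nonneg fun j _ => len_nonneg D (g j)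
    have : 0 < B := by linarith
    positivity
  have hsm : ∀ᶠ n : ℕ in atTop, (B - A) * rad A η n ^ (1 / tt η) * (K4 * (n * B ^ n)) ≤ 1 := by
    filter_upwards [ev_exp (A ^ η) ((B - A) * K4) (Real.one_lt_rpow hA hη0) 1] with n hn
    rw [rad_rpow hA hη0 hη, pow_one] at *
    have h1 : B ^ n ≤ (A ^ (1 + η)) ^ n := pow_le_pow_left₀ (by linarith) hB n
    have h2 : (A ^ (-(1 + 2 * η))) ^ n * (A ^ (1 + η)) ^ n * (A ^ η) ^ n = 1 := by
      rw [← mul_pow, ← mul_pow, ← Real.rpow_add hA0, ← Real.rpow_add hA0]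
      rw [show -(1 + 2 * η) + (1 + η) + η = 0 by ring, Real.rpow_zero, one_pow]
    calc (B - A) * (A ^ (-(1 + 2 * η))) ^ n * (K4 * (n * B ^ n))
        = (A ^ (-(1 + 2 * η))) ^ n * B ^ n * ((B - A) * K4 * n) := by ring
      _ ≤ (A ^ (-(1 + 2 * η))) ^ n * (A ^ (1 + η)) ^ n * ((A ^ η) ^ n) := by
          apply mul_le_mul _ hn (by positivity) (by positivity)
          exact mul_le_mul_of_nonneg_left h1 (by positivity)
      _ = 1 := h2
  -- the large intervals
  have hlg : ∀ᶠ n : ℕ in atTop, 2 * A * (A ^ η) ^ n ≤ (B - A) * (A ^ (2 * η)) ^ n :=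
    ev_geom (by positivity) (Real.rpow_lt_rpow_of_exponent_lt hA (by linarith)) _ _ hBA
  filter_upwards [ae_poly D] with x hx hxAB
  have hst := stage τ κ Z₀ hlin g hli hg hA hb1 hzz hxAB.1 hxAB.2 hx
  filter_upwards [hst, hff, hsm, hlg] with n h1 h2 h3 h4
  obtain ⟨a, ha1, ha2, ha3, ha4⟩ := h1
  rw [hbz] at ha3 ha4
  refine ⟨a, ?_, ?_⟩
  · intro a' hA' hB' ha'
    have h5 : |a' - a| * (K4 * (n * B ^ n)) ≤ 1 := by
      refine le_trans ?_ h3
      apply mul_le_mul_of_nonneg_right ha'.le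
      have : 0 < B := by linarith
      positivity
    obtain ⟨h6, h7⟩ := ha4 a' (by linarith) hB' h5
    have h8 := h2 (a' ^ n) (pow_le_pow_left₀ hA0.le hA' n)
      (pow_le_pow_left₀ (by linarith) hB' n)
    exact ⟨h6.mono h8, fun j => (h7 j).mono h8⟩
  · rw [abs_sub_comm, abs_of_pos (by linarith)]
    have hAn : 0 < A ^ n := by positivity
    have h5 : (B - A) * rad A η n * A ^ n = (B - A) * (A ^ (2 * η)) ^ n := by
      unfold rad
      rw [mul_assoc, ← mul_pow]
      congr 2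
      nth_rewrite 2 [← Real.rpow_one A]
      rw [← Real.rpow_add hA0]
      congr 1
      ring
    have h6 : 0 < A * (A ^ η) ^ n := by positivity
    refine lt_of_mul_lt_mul_right ?_ hAn.le
    rw [h5]
    linarith

end Pool.Agent.V7H11.CP
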