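import Pool.Agent.V7H11.CP.Lin

set_option autoImplicit false

/-!
# The Diophantine condition at the slopes
-/

namespace Pool.Agent.V7H11.CP

open Finset Polynomial Filter Topology

theorem ev_exp (b K : ℝ) (hb : 1 < b) (k : ℕ) : ∀ᶠ n : ℕ in atTop, K * (n : ℝ) ^ k ≤ b ^ n := by
  have h1 : Tendsto (fun n : ℕ => K * ((n : ℝ) ^ k / b ^ n)) atTop (𝓝 (K * 0)) :=
    (tendsto_pow_const_div_const_pow_of_one_lt k hb).const_mul K
  rw [mul_zero] at h1
  filter_upwards [(tendsto_order.1 h1).2 1 one_pos] with n hn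
  have h2 : 0 < b ^ n := by positivity
  rw [mul_div_assoc', div_lt_one h2] at hn
  exact hn.le

/-- the auxiliary integer polynomial -/
noncomputable def aux {r : ℕ} (D n : ℕ) (g : Fin r → ℤ[X]) (h : Fin r → ℤ) (m : ℤ) : ℤ[X] :=
  ∑ i ∈ range (D + 1), C (∑ j, h j * ((n + i : ℕ) : ℤ) * (g j).coeff i - if i = 0 then n * m else 0) *
    X ^ i

theorem aux_coeff {r : ℕ} (D n : ℕ) (g : Fin r → ℤ[X]) (h : Fin r → ℤ) (m : ℤ) (k : ℕ) :
    (aux D n g h m).coeff k = if k ≤ D then
      ∑ j, h j * ((n + k : ℕ) : ℤ) * (g j).coeff k - (if k = 0 then n * m else 0) else 0 := by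
  unfold aux
  rw [finsetSum_coeff]
  simp only [coeff_C_mul, coeff_X_pow, mul_ite, mul_one, mul_zero]
  rw [Finset.sum_ite_eq]
  simp only [mem_range, Nat.lt_succ_iff]

theorem aux_deg {r : ℕ} (D n : ℕ) (g : Fin r → ℤ[X]) (h : Fin r → ℤ) (m : ℤ) :
    (aux D n g h m).natDegree ≤ D := by
  unfold aux
  refine natDegree_sum_le_of_forall_le _ _ fun i hi => ?_
  refine (natDegree_C_mul_X_pow_le _ _).trans ?_
  have := mem_range.1 hi
  omega

theorem aux_val {r : ℕ} (D n : ℕ) (hn : 0 < n) (g : Fin r → ℤ[X]) (h : Fin r → ℤ) (m : ℤ)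
    (x : ℝ) : aeval x (aux D n g h m) = n * (∑ j, (h j : ℝ) * lam D n x (g j) - m) := by
  have hn' : (n : ℝ) ≠ 0 := by
    have : (0 : ℝ) < n := by exact_mod_cast hn
    exact this.ne'
  unfold aux lam
  rw [map_sum]
  have h1 : ∀ i ∈ range (D + 1), aeval x (C (∑ j, h j * ((n + i : ℕ) : ℤ) * (g j).coeff i -
      if i = 0 then (n : ℤ) * m else 0) * X ^ i : ℤ[X]) =
      ∑ j, (h j : ℝ) * (n + i) * (g j).coeff i * x ^ i - if i = 0 then (n : ℝ) * m else 0 := by
    intro i _
    rw [map_mul, aeval_C, map_pow, aeval_X]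
    simp only [algebraMap_int_eq, eq_intCast]
    push_cast
    rw [sub_mul, sum_mul]
    congr 1
    split_ifs with hi
    · rw [hi]
      simp
    · simp
  rw [sum_congr rfl h1, sum_sub_distrib, mul_sub]
  congr 1
  · rw [sum_comm, mul_sum]
    refine sum_congr rfl fun j _ => ?_
    rw [mul_sum, mul_sum]
    refine sum_congr rfl fun i _ => ?_
    field_simp
  · simp

/-- **The Diophantine condition.** -/
theorem dioph {D r : ℕ} (g : Fin r → ℤ[X])
    (hli : LinearIndependent ℤ (Fin.cons 1 g : Fin (r + 1) → ℤ[X]))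
    (hg : ∀ j, (g j).natDegree ≤ D) {x B : ℝ} (hx : 0 < x) (hxB : x ≤ B) (hB : 1 ≤ B) (τ : ℕ)
    (hP : ∀ᶠ H : ℕ in atTop, ∀ P : ℤ[X], P ≠ 0 → P.natDegree ≤ D →
      (∀ i, |P.coeff i| ≤ H) → 1 ≤ |aeval x P| * (H : ℝ) ^ τ)
    (σ : Fin r → ℤ) (hσ : ∀ j, |σ j| = 1) (b : ℝ) (hb : 1 < b) :
    ∀ᶠ n : ℕ in atTop, ∀ h : Fin r → ℤ, h ≠ 0 → (∀ j, |(h j : ℝ)| ≤ b ^ n) → ∀ m : ℤ,
      ((b ^ n) ^ (τ + 1))⁻¹ ≤ |∑ j, (h j : ℝ) * ((σ j : ℝ) * lam D n x (g j)) - m| := by
  set L : ℝ := ∑ j, len D (g j) with hL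
  have hL0 : 0 ≤ L := sum_nonneg fun j _ => len_nonneg D (g j)
  set K1 : ℝ := 2 * B ^ D * L + 1 with hK1
  have hBD : 0 < B ^ D := by positivity
  have hK1' : 1 ≤ K1 := by
    have : 0 ≤ 2 * B ^ D * L := by positivity
    linarith
  set K2 : ℝ := (D + 1) * L + K1 with hK2
  have hK2' : 1 ≤ K2 := by
    have : 0 ≤ (D + 1) * L := by positivity
    linarith
  set Hn : ℕ → ℕ := fun n => ⌈K2 * n * b ^ n⌉₊ with hHn
  have hHn_ge : ∀ n : ℕ, n ≤ Hn n := by
    intro n
    have h1 : (n : ℝ) ≤ K2 * n * b ^ n := by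
      have h2 : (1 : ℝ) ≤ b ^ n := one_le_pow₀ hb.le
      have h3 : (0 : ℝ) ≤ n := Nat.cast_nonneg n
      calc (n : ℝ) = 1 * n * 1 := by ring
        _ ≤ K2 * n * b ^ n := by gcongr
    have h2 : (n : ℝ) ≤ Hn n := h1.trans (Nat.le_ceil _)
    exact_mod_cast h2
  have hHn_tend : Tendsto Hn atTop atTop := tendsto_atTop_mono hHn_ge tendsto_id
  filter_upwards [hHn_tend.eventually hP, eventually_ge_atTop (max D 1),
    ev_exp b ((2 * K2) ^ τ) hb (τ + 1)] with n hn1 hn2 hn3 h hh hhb m
  have hn0 : 0 < n := by omega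
  have hDn : D ≤ n := by omega
  have hn1' : (1 : ℝ) ≤ n := by exact_mod_cast (by omega : 1 ≤ n)
  have hbn : (1 : ℝ) ≤ b ^ n := one_le_pow₀ hb.le
  have hlam : ∀ j, |lam D n x (g j)| ≤ 2 * B ^ D * len D (g j) := fun j =>
    lam_le hDn hn0 hx.le hxB hB (g j)
  have hσr : ∀ j, |(σ j : ℝ)| = 1 := by
    intro j
    have := hσ j
    exact_mod_cast this
  have hsum : |∑ j, (h j : ℝ) * ((σ j : ℝ) * lam D n x (g j))| ≤ (K1 - 1) * b ^ n := by
    refine (abs_sum_le_sum_abs _ _).trans ?_
    calc ∑ j, |(h j : ℝ) * ((σ j : ℝ) * lam D n x (g j))|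
        ≤ ∑ j, b ^ n * (2 * B ^ D * len D (g j)) := by
          refine sum_le_sum fun j _ => ?_
          rw [abs_mul, abs_mul, hσr, one_mul]
          exact mul_le_mul (hhb j) (hlam j) (abs_nonneg _) (by positivity)
      _ = _ := by
          rw [← mul_sum, ← mul_sum, hK1, hL]
          ring
  have hinv : ((b ^ n) ^ (τ + 1))⁻¹ ≤ 1 := inv_le_one_of_one_le₀ (one_le_pow₀ hbn)
  rcases le_or_gt |(m : ℝ)| (K1 * b ^ n) with hm | hm
  swap
  · have h1 : |(m : ℝ)| - |∑ j, (h j : ℝ) * ((σ j : ℝ) * lam D n x (g j))| ≤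
        |∑ j, (h j : ℝ) * ((σ j : ℝ) * lam D n x (g j)) - m| := by
      rw [abs_sub_comm]
      exact abs_sub_abs_le_abs_sub _ _
    have h2 : b ^ n ≤ K1 * b ^ n - (K1 - 1) * b ^ n := by
      have : K1 * b ^ n - (K1 - 1) * b ^ n = b ^ n := by ring
      rw [this]
    linarith
  · -- the integer polynomial
    set h' : Fin r → ℤ := fun j => σ j * h j with hh'
    have hh'0 : h' ≠ 0 := by
      intro h0
      apply hh
      funext j
      have h1 : σ j * h j = 0 := congrFun h0 j
      rcases mul_eq_zero.1 h1 with h2 | h2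
      · have := hσ j
        rw [h2] at this
        simp at this
      · exact h2
    set P := aux D n g h' m with hPdef
    have hP0 : P ≠ 0 := by
      obtain ⟨i, hi1, hi2⟩ := li_const g hli h' hh'0
      intro h0
      have hiD : i ≤ D := by
        by_contra hcon
        push Not at hcon
        apply hi2
        refine sum_eq_zero fun j _ => ?_
        rw [coeff_eq_zero_of_natDegree_lt ((hg j).trans_lt hcon), mul_zero]
      have h1 := aux_coeff D n g h' m i
      rw [← hPdef, h0, coeff_zero, if_pos hiD, if_neg (by omega), sub_zero] at h1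
      have h2 : ∑ j, h' j * ((n + i : ℕ) : ℤ) * (g j).coeff i =
          ((n + i : ℕ) : ℤ) * ∑ j, h' j * (g j).coeff i := by
        rw [mul_sum]
        refine sum_congr rfl fun j _ => ?_
        ring
      rw [h2] at h1
      have h3 : ((n + i : ℕ) : ℤ) ≠ 0 := by
        have : n + i ≠ 0 := by omega
        exact_mod_cast this
      exact (mul_ne_zero h3 hi2) h1.symm
    have hPco : ∀ i, |P.coeff i| ≤ (Hn n : ℤ) := by
      intro i
      have h1 : |(P.coeff i : ℝ)| ≤ K2 * n * b ^ n := by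
        rw [hPdef, aux_coeff]
        split_ifs with hi hi0
        · -- i = 0
          push_cast
          refine (abs_sub _ _).trans ?_
          have h2 : |∑ j, (h' j : ℝ) * ((n : ℝ) + i) * ((g j).coeff i : ℝ)| ≤
              b ^ n * (n * (D + 1)) * L := by
            refine (abs_sum_le_sum_abs _ _).trans ?_
            rw [hL, mul_sum]
            refine sum_le_sum fun j _ => ?_
            rw [abs_mul, abs_mul]
            have h3 : |(h' j : ℝ)| ≤ b ^ n := by
              simp only [hh']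
              push_cast
              rw [abs_mul, hσr, one_mul]
              exact hhb j
            have h4 : |((g j).coeff i : ℝ)| ≤ len D (g j) := by
              unfold len
              exact single_le_sum (f := fun i => |((g j).coeff i : ℝ)|) (fun _ _ => abs_nonneg _)
                (mem_range.2 (by omega))
            have h5 : |(n : ℝ) + i| ≤ n * (D + 1) := by
              rw [abs_of_nonneg (by positivity)]
              have h6 : (i : ℝ) ≤ D := by exact_mod_cast hi
              have h7 : (0 : ℝ) ≤ D := Nat.cast_nonneg D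
              nlinarith
            exact mul_le_mul (mul_le_mul h3 h5 (abs_nonneg _) (by positivity)) h4 (abs_nonneg _)
              (by positivity)
          have h3 : |(n : ℝ) * m| ≤ n * (K1 * b ^ n) := by
            rw [abs_mul, abs_of_nonneg (Nat.cast_nonneg n)]
            exact mul_le_mul_of_nonneg_left hm (Nat.cast_nonneg n)
          calc _ ≤ b ^ n * (n * (D + 1)) * L + n * (K1 * b ^ n) := add_le_add h2 h3
            _ = K2 * n * b ^ n := by rw [hK2]; ring
        · push_cast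
          rw [sub_zero]
          have h2 : |∑ j, (h' j : ℝ) * ((n : ℝ) + i) * ((g j).coeff i : ℝ)| ≤
              b ^ n * (n * (D + 1)) * L := by
            refine (abs_sum_le_sum_abs _ _).trans ?_
            rw [hL, mul_sum]
            refine sum_le_sum fun j _ => ?_
            rw [abs_mul, abs_mul]
            have h3 : |(h' j : ℝ)| ≤ b ^ n := by
              simp only [hh']
              push_cast
              rw [abs_mul, hσr, one_mul]
              exact hhb j
            have h4 : |((g j).coeff i : ℝ)| ≤ len D (g j) := by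
              unfold len
              exact single_le_sum (f := fun i => |((g j).coeff i : ℝ)|) (fun _ _ => abs_nonneg _)
                (mem_range.2 (by omega))
            have h5 : |(n : ℝ) + i| ≤ n * (D + 1) := by
              rw [abs_of_nonneg (by positivity)]
              have h6 : (i : ℝ) ≤ D := by exact_mod_cast hi
              have h7 : (0 : ℝ) ≤ D := Nat.cast_nonneg D
              nlinarith
            exact mul_le_mul (mul_le_mul h3 h5 (abs_nonneg _) (by positivity)) h4 (abs_nonneg _)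
              (by positivity)
          refine h2.trans ?_
          have h3 : 0 ≤ n * (K1 * b ^ n) := by positivity
          calc b ^ n * (n * (D + 1)) * L ≤ b ^ n * (n * (D + 1)) * L + n * (K1 * b ^ n) := by linarith
            _ = K2 * n * b ^ n := by rw [hK2]; ring
        · simp only [Int.cast_zero, abs_zero]
          positivity
      have h2 : |(P.coeff i : ℝ)| ≤ Hn n := h1.trans (Nat.le_ceil _)
      exact_mod_cast h2
    have hPdeg : P.natDegree ≤ D := aux_deg D n g h' m
    have hmain := hn1 P hP0 hPdeg hPco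
    have hval : aeval x P = n * (∑ j, (h j : ℝ) * ((σ j : ℝ) * lam D n x (g j)) - m) := by
      rw [hPdef, aux_val D n hn0]
      congr 2
      refine sum_congr rfl fun j _ => ?_
      simp only [hh']
      push_cast
      ring
    set v : ℝ := |∑ j, (h j : ℝ) * ((σ j : ℝ) * lam D n x (g j)) - m| with hv
    have hv0 : 0 ≤ v := abs_nonneg _
    rw [hval, abs_mul, ← hv, abs_of_nonneg (Nat.cast_nonneg n)] at hmain
    have hKn : 1 ≤ K2 * n * b ^ n := by
      calc (1 : ℝ) = 1 * 1 * 1 := by ring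
        _ ≤ K2 * n * b ^ n := by gcongr
    have hHle : (Hn n : ℝ) ≤ 2 * (K2 * n * b ^ n) := by
      have := (Nat.ceil_lt_add_one (by positivity : 0 ≤ K2 * n * b ^ n)).le
      simp only [hHn]
      linarith
    have h1 : (Hn n : ℝ) ^ τ ≤ (2 * K2) ^ τ * (n : ℝ) ^ τ * (b ^ n) ^ τ := by
      calc (Hn n : ℝ) ^ τ ≤ (2 * (K2 * n * b ^ n)) ^ τ :=
            pow_le_pow_left₀ (Nat.cast_nonneg _) hHle τ
        _ = _ := by
            rw [show 2 * (K2 * n * b ^ n) = (2 * K2) * n * b ^ n by ring, mul_pow, mul_pow]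
    have h2 : (n : ℝ) * v * (Hn n : ℝ) ^ τ ≤ v * (b ^ n) ^ (τ + 1) := by
      calc (n : ℝ) * v * (Hn n : ℝ) ^ τ
          ≤ (n : ℝ) * v * ((2 * K2) ^ τ * (n : ℝ) ^ τ * (b ^ n) ^ τ) :=
            mul_le_mul_of_nonneg_left h1 (by positivity)
        _ = v * (b ^ n) ^ τ * ((2 * K2) ^ τ * (n : ℝ) ^ (τ + 1)) := by ring
        _ ≤ v * (b ^ n) ^ τ * b ^ n := mul_le_mul_of_nonneg_left hn3 (by positivity)
        _ = _ := by rw [pow_succ (b ^ n) τ]; ring
    have h3 : 1 ≤ v * (b ^ n) ^ (τ + 1) := hmain.trans h2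
    rw [inv_eq_one_div, div_le_iff₀ (by positivity)]
    exact h3

end Pool.Agent.V7H11.CP
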