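import Mathlib

set_option autoImplicit false

/-!
# Linearisation of `g (t ^ (1/n)) t`
-/

namespace Pool.Agent.V7H11.CP

open Finset Polynomial

theorem mono_lin {n i : ℕ} (hn : 0 < n) (hi : i ≤ n) {x a : ℝ} (hx : 0 < x) (hxa : x ≤ a) :
    |a ^ (i + n) - (x ^ (i + n) + (1 + (i : ℝ) / n) * x ^ i * (a ^ n - x ^ n))| ≤
      x ^ i * (a ^ n - x ^ n) ^ 2 / x ^ n := by
  obtain ⟨b, hb⟩ : ∃ b : ℝ, a = b * x := ⟨a / x, by field_simp⟩
  have hb1 : 1 ≤ b := by
    by_contra h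
    push Not at h
    nlinarith
  have hb0 : 0 < b := by linarith
  have hn' : (0 : ℝ) < n := by exact_mod_cast hn
  set w : ℝ := b ^ n with hw
  have hw1 : 1 ≤ w := one_le_pow₀ hb1
  set s : ℝ := (i : ℝ) / n with hs
  have hs0 : 0 ≤ s := by positivity
  have hs1 : s ≤ 1 := by
    rw [hs, div_le_one hn']
    exact_mod_cast hi
  have hbi : b ^ i = w ^ s := by
    rw [hw, hs, ← Real.rpow_natCast b n, ← Real.rpow_mul hb0.le]
    rw [show (n : ℝ) * ((i : ℝ) / n) = i by field_simp, Real.rpow_natCast]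
  have h1 : w ^ s ≤ 1 + s * (w - 1) := by
    have := rpow_one_add_le_one_add_mul_self (s := w - 1) (by linarith) hs0 hs1
    rwa [show 1 + (w - 1) = w by ring] at this
  have h2 : 1 + (1 + s) * (w - 1) ≤ w ^ (1 + s) := by
    have := one_add_mul_self_le_rpow_one_add (s := w - 1) (by linarith) (p := 1 + s) (by linarith)
    rwa [show 1 + (w - 1) = w by ring] at this
  have h3 : w ^ (1 + s) = w * w ^ s := by
    rw [Real.rpow_add (by linarith), Real.rpow_one]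
  have hxn : 0 < x ^ n := by positivity
  have e1 : a ^ (i + n) - (x ^ (i + n) + (1 + s) * x ^ i * (a ^ n - x ^ n)) =
      x ^ (i + n) * (w * w ^ s - 1 - (1 + s) * (w - 1)) := by
    rw [hb, ← hbi, hw]
    ring
  have e2 : x ^ i * (a ^ n - x ^ n) ^ 2 / x ^ n = x ^ (i + n) * (w - 1) ^ 2 := by
    rw [hb, hw]
    field_simp
    ring
  rw [e1, e2, abs_mul, abs_of_pos (by positivity : 0 < x ^ (i + n))]
  apply mul_le_mul_of_nonneg_left _ (by positivity)
  rw [abs_le]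
  constructor
  · have : 0 ≤ (w - 1) ^ 2 := sq_nonneg _
    linarith
  · have h4 : w * w ^ s ≤ w * (1 + s * (w - 1)) := mul_le_mul_of_nonneg_left h1 (by linarith)
    have h5 : s * (w - 1) ^ 2 ≤ 1 * (w - 1) ^ 2 := mul_le_mul_of_nonneg_right hs1 (sq_nonneg _)
    nlinarith

/-- value of a polynomial -/
theorem val_eq {D : ℕ} (g : ℤ[X]) (hg : g.natDegree ≤ D) (y : ℝ) :
    aeval y g = ∑ i ∈ range (D + 1), (g.coeff i : ℝ) * y ^ i := by
  rw [aeval_eq_sum_range' (by omega : g.natDegree < D + 1)]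
  refine sum_congr rfl fun i _ => ?_
  rw [zsmul_eq_mul]

/-- the slope of `g (t ^ (1/n)) t` at `t = x ^ n` -/
noncomputable def lam (D n : ℕ) (x : ℝ) (g : ℤ[X]) : ℝ :=
  ∑ i ∈ range (D + 1), (g.coeff i : ℝ) * (1 + (i : ℝ) / n) * x ^ i

/-- sum of the absolute values of the coefficients -/
noncomputable def len (D : ℕ) (g : ℤ[X]) : ℝ := ∑ i ∈ range (D + 1), |(g.coeff i : ℝ)|

theorem len_nonneg (D : ℕ) (g : ℤ[X]) : 0 ≤ len D g := sum_nonneg fun _ _ => abs_nonneg _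

theorem lam_le {D n : ℕ} (hn : D ≤ n) (hn0 : 0 < n) {x B : ℝ} (hx : 0 ≤ x) (hxB : x ≤ B)
    (hB : 1 ≤ B) (g : ℤ[X]) : |lam D n x g| ≤ 2 * B ^ D * len D g := by
  unfold lam len
  refine (abs_sum_le_sum_abs _ _).trans ?_
  rw [mul_sum]
  refine sum_le_sum fun i hi => ?_
  have hi' : i ≤ D := by
    have := mem_range.1 hi
    omega
  have hn' : (0 : ℝ) < n := by exact_mod_cast hn0
  have h1 : (i : ℝ) / n ≤ 1 := by
    rw [div_le_one hn']
    exact_mod_cast hi'.trans hn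
  have h2 : x ^ i ≤ B ^ D := (pow_le_pow_left₀ hx hxB i).trans (pow_le_pow_right₀ hB hi')
  have h3 : (0 : ℝ) ≤ (i : ℝ) / n := by positivity
  rw [abs_mul, abs_mul, abs_of_nonneg (by positivity : (0 : ℝ) ≤ 1 + (i : ℝ) / n),
    abs_of_nonneg (by positivity : 0 ≤ x ^ i)]
  calc |(g.coeff i : ℝ)| * (1 + (i : ℝ) / n) * x ^ i
      ≤ |(g.coeff i : ℝ)| * 2 * B ^ D := by
        apply mul_le_mul _ h2 (by positivity) (by positivity)
        exact mul_le_mul_of_nonneg_left (by linarith) (abs_nonneg _)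
    _ = _ := by ring

theorem lin_err {D n : ℕ} (hn : D ≤ n) (hn0 : 0 < n) {x a B : ℝ} (hx : 0 < x) (hxa : x ≤ a)
    (hxB : x ≤ B) (hB : 1 ≤ B) (g : ℤ[X]) (hg : g.natDegree ≤ D) :
    |aeval a g * a ^ n - (aeval x g * x ^ n + lam D n x g * (a ^ n - x ^ n))| ≤
      B ^ D * len D g * ((a ^ n - x ^ n) ^ 2 / x ^ n) := by
  rw [val_eq g hg, val_eq g hg]
  unfold lam len
  rw [sum_mul, sum_mul, sum_mul, ← sum_add_distrib, ← sum_sub_distrib, mul_sum, sum_mul]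
  refine (abs_sum_le_sum_abs _ _).trans (sum_le_sum fun i hi => ?_)
  have hi' : i ≤ D := by
    have := mem_range.1 hi
    omega
  have h1 := mono_lin hn0 (hi'.trans hn) hx hxa
  have h2 : x ^ i ≤ B ^ D := (pow_le_pow_left₀ hx.le hxB i).trans (pow_le_pow_right₀ hB hi')
  have e : (g.coeff i : ℝ) * a ^ i * a ^ n -
      ((g.coeff i : ℝ) * x ^ i * x ^ n + (g.coeff i : ℝ) * (1 + (i : ℝ) / n) * x ^ i * (a ^ n - x ^ n)) =
      (g.coeff i : ℝ) * (a ^ (i + n) - (x ^ (i + n) + (1 + (i : ℝ) / n) * x ^ i * (a ^ n - x ^ n))) := by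
    ring
  rw [e, abs_mul]
  have h3 : 0 ≤ (a ^ n - x ^ n) ^ 2 / x ^ n := by positivity
  calc |(g.coeff i : ℝ)| * |a ^ (i + n) - (x ^ (i + n) + (1 + (i : ℝ) / n) * x ^ i * (a ^ n - x ^ n))|
      ≤ |(g.coeff i : ℝ)| * (x ^ i * (a ^ n - x ^ n) ^ 2 / x ^ n) :=
        mul_le_mul_of_nonneg_left h1 (abs_nonneg _)
    _ = |(g.coeff i : ℝ)| * (x ^ i * ((a ^ n - x ^ n) ^ 2 / x ^ n)) := by ring
    _ ≤ |(g.coeff i : ℝ)| * (B ^ D * ((a ^ n - x ^ n) ^ 2 / x ^ n)) := by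
        apply mul_le_mul_of_nonneg_left _ (abs_nonneg _)
        exact mul_le_mul_of_nonneg_right h2 h3
    _ = _ := by ring

theorem pow_err {m : ℕ} {a a' B : ℝ} (ha : 0 ≤ a) (haB : a ≤ B) (ha' : 0 ≤ a') (haB' : a' ≤ B)
    (hB : 1 ≤ B) : |a' ^ m - a ^ m| ≤ |a' - a| * m * B ^ m := by
  have h1 := abs_pow_sub_pow_le a' a m
  refine h1.trans ?_
  have h2 : max |a'| |a| ≤ B := by
    rw [abs_of_nonneg ha, abs_of_nonneg ha']
    exact max_le haB' haB
  have h3 : max |a'| |a| ^ (m - 1) ≤ B ^ m :=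
    (pow_le_pow_left₀ (le_max_of_le_left (abs_nonneg _)) h2 _).trans
      (pow_le_pow_right₀ hB (by omega))
  exact mul_le_mul_of_nonneg_left h3 (by positivity)

theorem shift_err {D n : ℕ} (hn0 : 0 < n) {a a' B : ℝ} (ha : 0 ≤ a) (haB : a ≤ B)
    (ha' : 0 ≤ a') (haB' : a' ≤ B) (hB : 1 ≤ B) (g : ℤ[X]) (hg : g.natDegree ≤ D) :
    |aeval a' g * a' ^ n - aeval a g * a ^ n| ≤
      |a' - a| * (len D g * ((D + 1) * B ^ D) * (n * B ^ n)) := by
  rw [val_eq g hg, val_eq g hg]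
  unfold len
  rw [sum_mul, sum_mul, ← sum_sub_distrib, sum_mul, sum_mul, mul_sum]
  refine (abs_sum_le_sum_abs _ _).trans (sum_le_sum fun i hi => ?_)
  have hi' : i ≤ D := by
    have := mem_range.1 hi
    omega
  have h1 := pow_err (m := i + n) ha haB ha' haB' hB
  have e : (g.coeff i : ℝ) * a' ^ i * a' ^ n - (g.coeff i : ℝ) * a ^ i * a ^ n =
      (g.coeff i : ℝ) * (a' ^ (i + n) - a ^ (i + n)) := by ring
  rw [e, abs_mul]
  have h2 : (((i + n : ℕ) : ℝ)) ≤ (D + 1) * n := by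
    have h3 : i + n ≤ (D + 1) * n := by
      have : D * 1 ≤ D * n := Nat.mul_le_mul_left D hn0
      nlinarith
    exact_mod_cast h3
  have h3 : B ^ (i + n) ≤ B ^ D * B ^ n := by
    rw [← pow_add]
    exact pow_le_pow_right₀ hB (by omega)
  have h4 : (((i + n : ℕ) : ℝ)) * B ^ (i + n) ≤ ((D + 1) * n) * (B ^ D * B ^ n) :=
    mul_le_mul h2 h3 (by positivity) (by positivity)
  calc |(g.coeff i : ℝ)| * |a' ^ (i + n) - a ^ (i + n)|
      ≤ |(g.coeff i : ℝ)| * (|a' - a| * ((i + n : ℕ) : ℝ) * B ^ (i + n)) :=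
        mul_le_mul_of_nonneg_left h1 (abs_nonneg _)
    _ = |(g.coeff i : ℝ)| * |a' - a| * (((i + n : ℕ) : ℝ) * B ^ (i + n)) := by ring
    _ ≤ |(g.coeff i : ℝ)| * |a' - a| * (((D + 1) * n) * (B ^ D * B ^ n)) :=
        mul_le_mul_of_nonneg_left h4 (by positivity)
    _ = _ := by ring

/-- combinations of independent polynomials are not constant -/
theorem li_const {r : ℕ} (g : Fin r → ℤ[X])
    (hli : LinearIndependent ℤ (Fin.cons 1 g : Fin (r + 1) → ℤ[X])) (h : Fin r → ℤ) (hh : h ≠ 0) :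
    ∃ i, 1 ≤ i ∧ ∑ j, h j * (g j).coeff i ≠ 0 := by
  by_contra hno
  push Not at hno
  set Q : ℤ[X] := ∑ j, h j • g j with hQ
  have hco : ∀ i, Q.coeff i = ∑ j, h j * (g j).coeff i := by
    intro i
    rw [hQ, finsetSum_coeff]
    refine sum_congr rfl fun j _ => ?_
    rw [coeff_smul, smul_eq_mul]
  have hQc : Q = C (Q.coeff 0) := by
    ext i
    rw [coeff_C]
    split_ifs with hi
    · rw [hi]
    · rw [hco i]
      exact hno i (by omega)
  rw [Fintype.linearIndependent_iff] at hli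
  have h1 := hli (Fin.cons (-(Q.coeff 0)) h) (by
    rw [Fin.sum_univ_succ]
    simp only [Fin.cons_zero, Fin.cons_succ]
    rw [← hQ]
    rw [smul_eq_C_mul, mul_one]
    nth_rewrite 2 [hQc]
    rw [← C_add]
    simp)
  apply hh
  funext j
  have := h1 j.succ
  simpa using this

end Pool.Agent.V7H11.CP
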