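import Pool.Agent.V7H11.CP.Dioph
import Pool.Agent.Y961.JR.Linear

set_option autoImplicit false

/-!
# One stage: record windows around `x ^ n` contain a good `a ^ n`
-/

namespace Pool.Agent.V7H11.CP

open Finset Polynomial Filter Topology
open Pool.Agent.W147.PS (ff ff_compare)

/-- no prime within distance `d` of `x` -/
def PF (x d : ℝ) : Prop := ∀ q : ℕ, q.Prime → d < |(q : ℝ) - x|

/-- the uniform theorem on several real multiples -/
def LinP (r : ℕ) (ε κ Z₀ : ℝ) : Prop := ∀ Z : ℝ, Z₀ ≤ Z → ∀ α β : Fin r → ℝ,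
    (∀ h : Fin r → ℤ, h ≠ 0 → (∀ j, |(h j : ℝ)| ≤ Z ^ ε) → ∀ m : ℤ,
      Z ^ (-(1 - ε)) ≤ |∑ j, (h j : ℝ) * α j - m|) →
    ∀ M : ℝ, Z ^ ε ≤ M → (∀ n : ℕ, M < n → (n : ℝ) ≤ M + Z → ∀ j, Z ^ ε ≤ α j * n + β j) →
    ∃ n : ℕ, M < n ∧ (n : ℝ) ≤ M + Z ∧ (∀ q : ℕ, q.Prime → κ * ff Z < |(q : ℝ) - n|) ∧
      ∀ j, ∀ q : ℕ, q.Prime → κ * ff Z < |(q : ℝ) - (α j * n + β j)|

theorem ev_geom {u v : ℝ} (hu : 0 < u) (huv : u < v) (K γ : ℝ) (hγ : 0 < γ) :
    ∀ᶠ n : ℕ in atTop, K * u ^ n ≤ γ * v ^ n := by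
  have hv : 0 < v := hu.trans huv
  have h1 : Tendsto (fun n : ℕ => K * (u / v) ^ n) atTop (𝓝 (K * 0)) :=
    (tendsto_pow_atTop_nhds_zero_of_lt_one (by positivity) ((div_lt_one hv).2 huv)).const_mul K
  rw [mul_zero] at h1
  filter_upwards [(tendsto_order.1 h1).2 γ hγ] with n hn
  have h2 : 0 < v ^ n := by positivity
  rw [div_pow, mul_div_assoc', div_lt_iff₀ h2] at hn
  exact hn.le

theorem stage {D r : ℕ} (τ : ℕ) (κ Z₀ : ℝ) (hlin : LinP r (1 / ((τ : ℝ) + 2)) κ Z₀)
    (g : Fin r → ℤ[X]) (hli : LinearIndependent ℤ (Fin.cons 1 g : Fin (r + 1) → ℤ[X]))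
    (hg : ∀ j, (g j).natDegree ≤ D) {A B b : ℝ} (hA : 1 < A) (hb : 1 < b)
    (hz : (b ^ (τ + 2)) ^ 2 < A) {x : ℝ} (hxA : A < x) (hxB : x < B)
    (hP : ∀ᶠ H : ℕ in atTop, ∀ P : ℤ[X], P ≠ 0 → P.natDegree ≤ D →
      (∀ i, |P.coeff i| ≤ H) → 1 ≤ |aeval x P| * (H : ℝ) ^ τ) :
    ∀ᶠ n : ℕ in atTop, ∃ a : ℝ, x < a ∧ a < B ∧ (a - x) * A ^ n ≤ A * (b ^ (τ + 2)) ^ n ∧
      ∀ a' : ℝ, 0 < a' → a' ≤ B →
        |a' - a| * (((∑ j, len D (g j)) + 1) * ((D + 1) * B ^ D) * (n * B ^ n)) ≤ 1 →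
        PF (a' ^ n) (κ * ff ((b ^ (τ + 2)) ^ n) - 2) ∧
        ∀ j, PF (aeval a' (g j) * a' ^ n) (κ * ff ((b ^ (τ + 2)) ^ n) - 2) := by
  classical
  set z : ℝ := b ^ (τ + 2) with hzdef
  have hz1 : 1 < z := one_lt_pow₀ hb (by omega)
  have hzz : z < z ^ 2 := by nlinarith
  have hzA : z < A := hzz.trans hz
  have hbz : b ≤ z := by
    rw [hzdef]
    exact le_self_pow₀ hb.le (by omega)
  have hx0 : 0 < x := by linarith
  have hB1 : 1 ≤ B := by linarith
  have hBD : 0 < B ^ D := by positivity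
  -- the values are not zero
  have hgx : ∀ j, aeval x (g j) ≠ 0 := by
    intro j h0
    have hne : g j ≠ 0 := by
      have := hli.ne_zero j.succ
      simpa using this
    obtain ⟨N, hN⟩ := eventually_atTop.1 hP
    obtain ⟨K, hK⟩ := exists_nat_ge (len D (g j))
    have h1 := hN (max N K) (le_max_left _ _) (g j) hne (hg j) (by
      intro i
      by_cases hi : i ≤ D
      · have h2 : |((g j).coeff i : ℝ)| ≤ len D (g j) := by
          unfold len
          exact single_le_sum (f := fun i => |((g j).coeff i : ℝ)|) (fun _ _ => abs_nonneg _)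
            (mem_range.2 (by omega))
        have h3 : |((g j).coeff i : ℝ)| ≤ (max N K : ℕ) := by
          refine (h2.trans hK).trans ?_
          exact_mod_cast le_max_right _ _
        exact_mod_cast h3
      · rw [coeff_eq_zero_of_natDegree_lt ((hg j).trans_lt (by omega)), abs_zero]
        exact Int.natCast_nonneg _)
    rw [h0, abs_zero, zero_mul] at h1
    linarith
  set σ : Fin r → ℤ := fun j => if 0 < aeval x (g j) then 1 else -1 with hσdef
  have hσ : ∀ j, |σ j| = 1 := by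
    intro j
    simp only [hσdef]
    split_ifs <;> simp
  have hσr : ∀ j, |(σ j : ℝ)| = 1 := by
    intro j
    have := hσ j
    exact_mod_cast this
  have hσg : ∀ j, (σ j : ℝ) * aeval x (g j) = |aeval x (g j)| := by
    intro j
    simp only [hσdef]
    split_ifs with h
    · rw [abs_of_pos h]
      simp
    · rw [abs_of_nonpos (not_lt.1 h)]
      simp
  have hdio := dioph g hli hg hx0 hxB.le hB1 τ hP σ hσ b hb
  have hE4 : ∀ᶠ n : ℕ in atTop, ∀ j, (2 * B ^ D * len D (g j) + 1) * z ^ n ≤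
      |aeval x (g j)| * A ^ n := by
    rw [eventually_all]
    intro j
    exact ev_geom (by linarith) hzA _ _ (abs_pos.2 (hgx j))
  have hE6 : ∀ᶠ n : ℕ in atTop, ∀ j, (B ^ D * len D (g j)) * (z ^ 2) ^ n ≤ 1 * A ^ n := by
    rw [eventually_all]
    intro j
    exact ev_geom (by positivity) hz _ _ one_pos
  have hE7 : ∀ᶠ n : ℕ in atTop, A * z ^ n ≤ ((B - x) / 2) * A ^ n :=
    ev_geom (by linarith) hzA _ _ (by linarith)
  have hE5 : ∀ᶠ n : ℕ in atTop, Z₀ ≤ z ^ n :=
    (tendsto_pow_atTop_atTop_of_one_lt hz1).eventually_ge_atTop Z₀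
  filter_upwards [hdio, hE4, hE6, hE7, hE5, eventually_ge_atTop (max D 1)] with n hn1 hn4 hn6 hn7
    hn5 hn8
  have hn0 : 0 < n := by omega
  have hDn : D ≤ n := by omega
  have hn1' : (1 : ℝ) ≤ n := by exact_mod_cast (by omega : 1 ≤ n)
  set Z : ℝ := z ^ n with hZ
  have hbn1 : 1 ≤ b ^ n := one_le_pow₀ hb.le
  have hZb : Z = (b ^ n) ^ (τ + 2) := by
    rw [hZ, hzdef, ← pow_mul, ← pow_mul, mul_comm]
  have hZ0 : 0 < Z := by positivity
  have hε : (1 / ((τ : ℝ) + 2)) = (((τ + 2 : ℕ) : ℝ))⁻¹ := by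
    push_cast
    rw [one_div]
  have hZε : Z ^ (1 / ((τ : ℝ) + 2)) = b ^ n := by
    rw [hε, hZb]
    exact Real.pow_rpow_inv_natCast (by positivity) (by omega)
  have hZε' : Z ^ (-(1 - 1 / ((τ : ℝ) + 2))) = ((b ^ n) ^ (τ + 1))⁻¹ := by
    have h1 : Z ^ (1 - 1 / ((τ : ℝ) + 2)) = (b ^ n) ^ (τ + 1) := by
      rw [hZb, ← Real.rpow_natCast (b ^ n) (τ + 2), ← Real.rpow_natCast (b ^ n) (τ + 1),
        ← Real.rpow_mul (by positivity)]
      congr 1
      push_cast
      have : (τ : ℝ) + 2 ≠ 0 := by positivity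
      field_simp
      ring
    rw [Real.rpow_neg hZ0.le, h1]
  set T : ℝ := x ^ n with hT
  have hT0 : 0 < T := by positivity
  have hAT : A ^ n ≤ T := pow_le_pow_left₀ (by linarith) hxA.le n
  have hA0 : 0 < A ^ n := by positivity
  have hlam : ∀ j, |lam D n x (g j)| ≤ 2 * B ^ D * len D (g j) := fun j =>
    lam_le hDn hn0 hx0.le hxB.le hB1 (g j)
  set α : Fin r → ℝ := fun j => (σ j : ℝ) * lam D n x (g j) with hα
  set β : Fin r → ℝ := fun j => (σ j : ℝ) * aeval x (g j) * T - (σ j : ℝ) * lam D n x (g j) * T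
    with hβ
  obtain ⟨t, ht1, ht2, ht3, ht4⟩ := hlin Z hn5 α β (by
      intro h hh hhb m
      rw [hZε] at hhb
      rw [hZε']
      exact hn1 h hh hhb m) T (by
      rw [hZε]
      exact pow_le_pow_left₀ (by linarith) (by linarith) n) (by
      intro n' h1 h2 j
      rw [hZε]
      have e : α j * n' + β j = |aeval x (g j)| * T + (σ j : ℝ) * lam D n x (g j) * (n' - T) := by
        simp only [hα, hβ]
        rw [hσg j]
        ring
      rw [e]
      have h3 : |(σ j : ℝ) * lam D n x (g j) * (n' - T)| ≤ 2 * B ^ D * len D (g j) * Z := by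
        rw [abs_mul, abs_mul, hσr, one_mul]
        refine mul_le_mul (hlam j) ?_ (abs_nonneg _) ((abs_nonneg _).trans (hlam j))
        rw [abs_of_pos (by linarith)]
        linarith
      have h4 := (abs_le.1 h3).1
      have h5 := hn4 j
      have h6 : |aeval x (g j)| * A ^ n ≤ |aeval x (g j)| * T :=
        mul_le_mul_of_nonneg_left hAT (abs_nonneg _)
      have h7 : b ^ n ≤ Z := pow_le_pow_left₀ (by linarith) hbz n
      have h8 : (2 * B ^ D * len D (g j) + 1) * Z = 2 * B ^ D * len D (g j) * Z + Z := by ring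
      rw [h8] at h5
      linarith)
  set a : ℝ := (t : ℝ) ^ ((n : ℝ)⁻¹) with ha
  have ht0 : (0 : ℝ) ≤ t := Nat.cast_nonneg t
  have han : a ^ n = t := Real.rpow_inv_natCast_pow ht0 (by omega)
  have ha0 : 0 ≤ a := Real.rpow_nonneg ht0 _
  have hxa : x < a := by
    by_contra hcon
    push Not at hcon
    have := pow_le_pow_left₀ ha0 hcon n
    rw [han] at this
    linarith
  have hclose : (a - x) * A ^ n ≤ A * Z := by
    obtain ⟨m, rfl⟩ : ∃ m, n = m + 1 := ⟨n - 1, by omega⟩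
    have h1 : a * x ^ m ≤ a ^ (m + 1) := by
      rw [pow_succ, mul_comm]
      exact mul_le_mul_of_nonneg_right (pow_le_pow_left₀ hx0.le hxa.le m) ha0
    have h2 : (a - x) * x ^ m ≤ Z := by
      have h3 : (a - x) * x ^ m = a * x ^ m - x ^ (m + 1) := by ring
      rw [h3]
      rw [han] at h1
      linarith
    have h3 : (a - x) * A ^ m ≤ (a - x) * x ^ m :=
      mul_le_mul_of_nonneg_left (pow_le_pow_left₀ (by linarith) hxA.le m) (by linarith)
    calc (a - x) * A ^ (m + 1) = A * ((a - x) * A ^ m) := by ring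
      _ ≤ A * Z := mul_le_mul_of_nonneg_left (h3.trans h2) (by linarith)
  have haB : a < B := by
    have h1 : (a - x) * A ^ n ≤ ((B - x) / 2) * A ^ n := hclose.trans hn7
    have h2 : a - x ≤ (B - x) / 2 := le_of_mul_le_mul_right h1 hA0
    linarith
  refine ⟨a, hxa, haB, hclose, ?_⟩
  intro a' ha'0 ha'B hsmall
  set L : ℝ := ∑ j, len D (g j) with hL
  have hL0 : 0 ≤ L := sum_nonneg fun j _ => len_nonneg D (g j)
  have hnB : 0 ≤ (n : ℝ) * B ^ n := by positivity
  have hDB : 1 ≤ ((D : ℝ) + 1) * B ^ D := by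
    have h1 : (1 : ℝ) ≤ (D : ℝ) + 1 := by
      have : (0 : ℝ) ≤ D := Nat.cast_nonneg D
      linarith
    have h2 : (1 : ℝ) ≤ B ^ D := one_le_pow₀ hB1
    nlinarith
  have herr0 : |a' ^ n - t| ≤ 1 := by
    rw [← han]
    refine (pow_err ha0 haB.le ha'0.le ha'B hB1).trans (le_trans ?_ hsmall)
    rw [mul_assoc]
    refine mul_le_mul_of_nonneg_left ?_ (abs_nonneg _)
    have h1 : 1 ≤ (L + 1) * ((D + 1) * B ^ D) := by nlinarith
    calc (n : ℝ) * B ^ n = 1 * (n * B ^ n) := (one_mul _).symm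
      _ ≤ _ := mul_le_mul_of_nonneg_right h1 hnB
  have herr : ∀ j, |(σ j : ℝ) * (aeval a' (g j) * a' ^ n) - (α j * t + β j)| ≤ 2 := by
    intro j
    have h1 := shift_err hn0 ha0 haB.le ha'0.le ha'B hB1 (g j) (hg j)
    have h2 : |a' - a| * (len D (g j) * ((D + 1) * B ^ D) * (n * B ^ n)) ≤ 1 := by
      refine le_trans ?_ hsmall
      refine mul_le_mul_of_nonneg_left ?_ (abs_nonneg _)
      refine mul_le_mul_of_nonneg_right ?_ hnB
      refine mul_le_mul_of_nonneg_right ?_ (by linarith)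
      have : len D (g j) ≤ L := by
        rw [hL]
        exact single_le_sum (f := fun j => len D (g j)) (fun j _ => len_nonneg D (g j))
          (mem_univ j)
      linarith
    have h3 := lin_err hDn hn0 hx0 hxa.le hxB.le hB1 (g j) (hg j)
    have h4 : B ^ D * len D (g j) * ((a ^ n - x ^ n) ^ 2 / x ^ n) ≤ 1 := by
      have h5 : (a ^ n - x ^ n) ^ 2 ≤ (z ^ 2) ^ n := by
        rw [← pow_mul, mul_comm 2 n, pow_mul]
        rw [han]
        exact pow_le_pow_left₀ (by linarith) (by linarith) 2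
      have h6 : (a ^ n - x ^ n) ^ 2 / x ^ n ≤ (z ^ 2) ^ n / A ^ n :=
        div_le_div₀ (by positivity) h5 hA0 hAT
      have hl0 : 0 ≤ B ^ D * len D (g j) := mul_nonneg hBD.le (len_nonneg D _)
      calc B ^ D * len D (g j) * ((a ^ n - x ^ n) ^ 2 / x ^ n)
          ≤ B ^ D * len D (g j) * ((z ^ 2) ^ n / A ^ n) := mul_le_mul_of_nonneg_left h6 hl0
        _ = (B ^ D * len D (g j) * (z ^ 2) ^ n) / A ^ n := by ring
        _ ≤ 1 := by
            rw [div_le_one hA0]
            have := hn6 j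
            rwa [one_mul] at this
    have e : (σ j : ℝ) * (aeval a' (g j) * a' ^ n) - (α j * t + β j) =
        (σ j : ℝ) * ((aeval a' (g j) * a' ^ n - aeval a (g j) * a ^ n) +
          (aeval a (g j) * a ^ n - (aeval x (g j) * x ^ n + lam D n x (g j) * (a ^ n - x ^ n)))) := by
      simp only [hα, hβ]
      rw [han]
      ring
    rw [e, abs_mul, hσr, one_mul]
    exact (abs_add_le _ _).trans ((add_le_add (h1.trans h2) (h3.trans h4)).trans (by norm_num))
  have hupos : ∀ j, 0 ≤ α j * t + β j := by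
    intro j
    have e : α j * t + β j = |aeval x (g j)| * T + (σ j : ℝ) * lam D n x (g j) * (t - T) := by
      simp only [hα, hβ]
      rw [hσg j]
      ring
    rw [e]
    have h3 : |(σ j : ℝ) * lam D n x (g j) * (t - T)| ≤ 2 * B ^ D * len D (g j) * Z := by
      rw [abs_mul, abs_mul, hσr, one_mul]
      refine mul_le_mul (hlam j) ?_ (abs_nonneg _) ((abs_nonneg _).trans (hlam j))
      rw [abs_of_pos (by linarith)]
      linarith
    have h4 := (abs_le.1 h3).1
    have h5 := hn4 j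
    have h6 : |aeval x (g j)| * A ^ n ≤ |aeval x (g j)| * T :=
      mul_le_mul_of_nonneg_left hAT (abs_nonneg _)
    have h8 : (2 * B ^ D * len D (g j) + 1) * Z = 2 * B ^ D * len D (g j) * Z + Z := by ring
    rw [h8] at h5
    linarith
  constructor
  · intro q hq
    have h1 := ht3 q hq
    have h2 : |(q : ℝ) - t| ≤ |(q : ℝ) - a' ^ n| + |a' ^ n - t| := abs_sub_le _ _ _
    linarith
  · intro j q hq
    have h1 := ht4 j q hq
    have h2 := abs_le.1 (herr j)
    have hq0 : (0 : ℝ) ≤ q := Nat.cast_nonneg q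
    have h3 := hupos j
    set V : ℝ := aeval a' (g j) * a' ^ n with hV
    set u : ℝ := α j * t + β j with hu
    have hcase : (σ j : ℝ) = 1 ∨ (σ j : ℝ) = -1 := by
      have := hσr j
      rcases abs_eq (zero_le_one) |>.1 this with h | h
      · left; exact h
      · right; exact h
    rcases hcase with h | h
    · rw [h, one_mul] at h2
      have h4 : |(q : ℝ) - u| ≤ |(q : ℝ) - V| + |V - u| := abs_sub_le _ _ _
      have h5 : |V - u| ≤ 2 := abs_le.2 h2
      linarith only [h1, h4, h5]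
    · rw [h] at h2
      have h4 : |(q : ℝ) - u| ≤ q + u := by
        rw [abs_le]
        constructor
        · linarith only [hq0, h3]
        · linarith only [hq0, h3]
      have h5 : (q : ℝ) - V ≤ |(q : ℝ) - V| := le_abs_self _
      have h6 : -2 ≤ -1 * V - u := h2.1
      linarith only [h1, h4, h5, h6]

end Pool.Agent.V7H11.CP
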